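import Pool.Agent.H80.F4.Core2
import Pool.Graph.R_seed8.TH293.AP.Core

set_option autoImplicit false

/-! # The algebraic classification in an arbitrary field of characteristic zero (helper80) -/

namespace Pool.Agent.H80.F4

open NumberField IsDedekindDomain Polynomial

section K

variable {K : Type*} [Field K] [NumberField K]

theorem R_inj {X Z : K} (hX : TP X) (hZ : TP Z) (σ : K →+* ℂ) (h : R Z σ = R X σ) : Z = X := by
  apply σ.injective
  rw [hZ.eq σ, hX.eq σ, h]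

theorem Data.inv {X Z : K} {N : ℕ} {a b c d : ℤ} (h : Data X Z N a b c d) {D : ℕ}
    (hD : (D : ℤ) = a * d - b * c) :
    Data Z X D (N * d) (-(N * b)) (-(N * c)) (N * a) where
  hX := h.hZ
  hZ := h.hX
  hN := by
    have := h.hD
    rw [← hD] at this
    omega
  hD := by
    have h1 := h.hD
    have h2 : (N : ℤ) * d * (N * a) - -(N * b) * -(N * c) = (N : ℤ) * N * (a * d - b * c) := by ring
    rw [h2]
    have h3 : (N : ℤ) ≠ 0 := by exact_mod_cast h.hN.ne'
    exact mul_ne_zero (mul_ne_zero h3 h3) h1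
  h1 := by
    have e1 := h.h1
    have e2 := h.h2
    have hX := h.hX.ne
    have hY := h.hX.sub.ne
    have g1 : Z ^ (N * d : ℤ) = X ^ (a * d) * (1 - X) ^ (b * d) := by
      rw [zpow_mul, zpow_natCast, e1, mul_zpow, ← zpow_mul, ← zpow_mul]
    have g2 : (1 - Z) ^ (-(N * b) : ℤ) = X ^ (-(c * b)) * (1 - X) ^ (-(d * b)) := by
      rw [← mul_neg, zpow_mul, zpow_natCast, e2, mul_zpow, ← zpow_mul, ← zpow_mul, mul_neg, mul_neg]
    rw [g1, g2]
    have g3 : X ^ (a * d) * (1 - X) ^ (b * d) * (X ^ (-(c * b)) * (1 - X) ^ (-(d * b))) =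
        X ^ (a * d + -(c * b)) * (1 - X) ^ (b * d + -(d * b)) := by
      rw [zpow_add₀ hX, zpow_add₀ hY]; ring
    rw [g3, ← zpow_natCast, hD]
    have g4 : b * d + -(d * b) = 0 := by ring
    have g5 : a * d + -(c * b) = a * d - b * c := by ring
    rw [g4, g5, zpow_zero, mul_one]
  h2 := by
    have e1 := h.h1
    have e2 := h.h2
    have hX := h.hX.ne
    have hY := h.hX.sub.ne
    have g1 : Z ^ (-(N * c) : ℤ) = X ^ (-(a * c)) * (1 - X) ^ (-(b * c)) := by
      rw [← mul_neg, zpow_mul, zpow_natCast, e1, mul_zpow, ← zpow_mul, ← zpow_mul, mul_neg, mul_neg]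
    have g2 : (1 - Z) ^ (N * a : ℤ) = X ^ (c * a) * (1 - X) ^ (d * a) := by
      rw [zpow_mul, zpow_natCast, e2, mul_zpow, ← zpow_mul, ← zpow_mul]
    rw [g1, g2]
    have g3 : X ^ (-(a * c)) * (1 - X) ^ (-(b * c)) * (X ^ (c * a) * (1 - X) ^ (d * a)) =
        X ^ (-(a * c) + c * a) * (1 - X) ^ (-(b * c) + d * a) := by
      rw [zpow_add₀ hX, zpow_add₀ hY]; ring
    rw [g3, ← zpow_natCast, hD]
    have g4 : -(a * c) + c * a = 0 := by ring
    have g5 : -(b * c) + d * a = a * d - b * c := by ring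
    rw [g4, g5, zpow_zero, one_mul]

theorem Data.inv' {X Z : K} {N : ℕ} {a b c d : ℤ} (h : Data X Z N a b c d) :
    ∃ (M : ℕ) (a' b' c' d' : ℤ), Data Z X M a' b' c' d' := by
  rcases lt_or_gt_of_ne h.hD with h1 | h1
  · obtain ⟨D, hD⟩ := Int.eq_ofNat_of_zero_le (by linarith : 0 ≤ c * b - d * a)
    have := h.symZ.inv hD.symm
    have h2 := this.symX
    rw [sub_sub_cancel] at h2
    exact ⟨_, _, _, _, _, h2⟩
  · obtain ⟨D, hD⟩ := Int.eq_ofNat_of_zero_le h1.le
    exact ⟨_, _, _, _, _, h.inv hD.symm⟩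

/-- the outcome -/
def Out (X Z : K) : Prop := Z = X ∨ Z = 1 - X ∨
  (∃ p q : ℚ, algebraMap ℚ K p = X ∧ algebraMap ℚ K q = Z) ∨
  (5 * (X * (1 - X)) = 1 ∧ 125 * (Z * (1 - Z)) = 1) ∨
  (125 * (X * (1 - X)) = 1 ∧ 5 * (Z * (1 - Z)) = 1)

theorem Out.symm {X Z : K} (h : Out X Z) : Out Z X := by
  rcases h with h | h | ⟨p, q, h1, h2⟩ | ⟨h1, h2⟩ | ⟨h1, h2⟩
  · left; exact h.symm
  · right; left; rw [h]; ring
  · right; right; left; exact ⟨q, p, h2, h1⟩
  · right; right; right; right; exact ⟨h2, h1⟩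
  · right; right; right; left; exact ⟨h2, h1⟩

theorem Out.symZ {X Z : K} (h : Out X (1 - Z)) : Out X Z := by
  rcases h with h | h | h | ⟨h1, h2⟩ | ⟨h1, h2⟩
  · right; left; rw [← h]; ring
  · left
    have : Z = 1 - (1 - Z) := by ring
    rw [this, h]; ring
  · right; right; left; exact rat_symZ h
  · right; right; right; left
    exact ⟨h1, by linear_combination h2⟩
  · right; right; right; right
    exact ⟨h1, by linear_combination h2⟩

theorem Out.symX {X Z : K} (h : Out (1 - X) Z) : Out X Z := h.symm.symZ.symm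

theorem eq_of_R {X : K} (hX : TP X) (σ : K →+* ℂ) {n : ℕ} (hn : n ≠ 0)
    (h : R X σ * (1 - R X σ) = 1 / n) : (n : K) * (X * (1 - X)) = 1 := by
  apply σ.injective
  rw [map_mul, map_mul, map_sub, map_one, map_natCast, hX.eq σ]
  have hn' : (n : ℝ) ≠ 0 := by exact_mod_cast hn
  have h1 : (n : ℝ) * (R X σ * (1 - R X σ)) = 1 := by
    rw [h]
    field_simp
  exact_mod_cast h1

theorem out_lt {X Z : K} {N : ℕ} {a b c d : ℤ} (h : Data X Z N a b c d) (σ₀ : K →+* ℂ)
    (h2 : R X σ₀ < 1 / 2) (h3 : R Z σ₀ < 1 / 2) : Out X Z := by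
  rcases lt_trichotomy (R Z σ₀) (R X σ₀) with h1 | h1 | h1
  · rcases core h σ₀ h1 h2 with h4 | ⟨h4, h5⟩
    · right; right; left; exact h4
    · right; right; right; left
      exact ⟨eq_of_R h.hX σ₀ (n := 5) (by norm_num) (by rw [h4]; norm_num),
        eq_of_R h.hZ σ₀ (n := 125) (by norm_num) (by rw [h5]; norm_num)⟩
  · left; exact R_inj h.hX h.hZ σ₀ h1
  · obtain ⟨M, a', b', c', d', h'⟩ := h.inv'
    apply Out.symm
    rcases core h' σ₀ h1 h3 with h4 | ⟨h4, h5⟩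
    · right; right; left; exact h4
    · right; right; right; left
      exact ⟨eq_of_R h.hZ σ₀ (n := 5) (by norm_num) (by rw [h4]; norm_num),
        eq_of_R h.hX σ₀ (n := 125) (by norm_num) (by rw [h5]; norm_num)⟩

theorem half_ne {X : K} (hX : TP X) (hX2 : 2 * X ≠ 1) (σ : K →+* ℂ) : R X σ ≠ 1 / 2 := by
  intro h
  apply hX2
  apply σ.injective
  rw [map_mul, map_ofNat, map_one, hX.eq σ, h]
  push_cast
  norm_num

theorem out {X Z : K} {N : ℕ} {a b c d : ℤ} (h : Data X Z N a b c d) (hX2 : 2 * X ≠ 1)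
    (hZ2 : 2 * Z ≠ 1) : Out X Z := by
  obtain ⟨σ₀⟩ : Nonempty (K →+* ℂ) := inferInstance
  rcases lt_or_gt_of_ne (half_ne h.hX hX2 σ₀) with h1 | h1
  · rcases lt_or_gt_of_ne (half_ne h.hZ hZ2 σ₀) with h2 | h2
    · exact out_lt h σ₀ h1 h2
    · exact (out_lt h.symZ σ₀ h1 (by rw [R_sub]; linarith)).symZ
  · rcases lt_or_gt_of_ne (half_ne h.hZ hZ2 σ₀) with h2 | h2
    · exact (out_lt h.symX σ₀ (by rw [R_sub]; linarith) h2).symX
    · exact (out_lt h.symX.symZ σ₀ (by rw [R_sub]; linarith) (by rw [R_sub]; linarith)).symX.symZ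

/-- multiplicative independence of `X` and `1 - X` -/
theorem indepK {X : K} (hX : TP X) (hX2 : 2 * X ≠ 1) (p q : ℤ) (h : X ^ p * (1 - X) ^ q = 1) :
    p = 0 ∧ q = 0 := by
  obtain ⟨v, hv⟩ := exists_big X hX.ne hX
  have h5 : Lg v (1 - X) = Lg v X := by
    rcases trop v X hX.ne hX.sub.ne with ⟨h2, -⟩ | ⟨h2, -⟩ | ⟨-, h2⟩
    · exact h2.symm
    · linarith
    · linarith
  have h6 := congrArg (Lg v) h
  rw [Lg_mul v (zpow_ne_zero _ hX.ne) (zpow_ne_zero _ hX.sub.ne), Lg_zpow, Lg_zpow, h5] at h6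
  have h7 : Lg v (1 : K) = 0 := by unfold Lg; simp
  rw [h7, ← add_mul] at h6
  have h8 : (p : ℝ) + q = 0 := by
    rcases mul_eq_zero.1 h6 with h | h
    · exact h
    · exact absurd h hv.ne'
  have h9 : q = -p := by
    have : p + q = 0 := by exact_mod_cast h8
    omega
  subst h9
  obtain ⟨σ⟩ : Nonempty (K →+* ℂ) := inferInstance
  have h10 := congrArg σ h
  rw [map_mul, map_zpow₀, map_zpow₀, map_sub, map_one, hX.eq σ] at h10
  have h11 : (R X σ) ^ p * (1 - R X σ) ^ (-p) = 1 := by exact_mod_cast h10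
  have hxp := hX.pos σ
  have hy : 0 < 1 - R X σ := by linarith [hX.lt σ]
  have h12 := congrArg Real.log h11
  rw [Real.log_mul (zpow_pos hxp p).ne' (zpow_pos hy _).ne', Real.log_zpow, Real.log_zpow,
    Real.log_one] at h12
  have h13 : (p : ℝ) * (Real.log (R X σ) - Real.log (1 - R X σ)) = 0 := by
    push_cast at h12
    linarith
  rcases mul_eq_zero.1 h13 with h | h
  · have : p = 0 := by exact_mod_cast h
    subst this
    simp
  · exfalso
    apply half_ne hX hX2 σ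
    have := Real.log_injOn_pos (show R X σ ∈ Set.Ioi (0 : ℝ) from hxp)
      (show (1 - R X σ) ∈ Set.Ioi (0 : ℝ) from hy) (by linarith)
    linarith

/-- the relations -/
def DepK (X Z : K) : Prop := ∃ k l m : ℤ, (k ≠ 0 ∨ l ≠ 0 ∨ m ≠ 0) ∧ X ^ k * (1 - X) ^ l * Z ^ m = 1

theorem DepK.rel {X Z : K} (hX : TP X) (hX2 : 2 * X ≠ 1) (hZ : Z ≠ 0) (h : DepK X Z) :
    ∃ (N : ℕ) (a b : ℤ), 0 < N ∧ Z ^ N = X ^ a * (1 - X) ^ b := by
  obtain ⟨k, l, m, h1, h2⟩ := h
  have hm : m ≠ 0 := by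
    rintro rfl
    rw [zpow_zero, mul_one] at h2
    have := indepK hX hX2 k l h2
    omega
  have hX0 := hX.ne
  have hY0 := hX.sub.ne
  rcases lt_or_gt_of_ne hm with h | h
  · obtain ⟨N, hN⟩ := Int.eq_ofNat_of_zero_le (by omega : 0 ≤ -m)
    refine ⟨N, k, l, by omega, ?_⟩
    rw [← zpow_natCast, ← hN, zpow_neg]
    rw [eq_comm]
    exact (mul_eq_one_iff_eq_inv₀ (zpow_ne_zero _ hZ)).1 h2
  · obtain ⟨N, hN⟩ := Int.eq_ofNat_of_zero_le (by omega : 0 ≤ m)
    refine ⟨N, -k, -l, by omega, ?_⟩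
    rw [← zpow_natCast, ← hN, zpow_neg, zpow_neg]
    have h3 : X ^ k * (1 - X) ^ l ≠ 0 := mul_ne_zero (zpow_ne_zero _ hX0) (zpow_ne_zero _ hY0)
    rw [← mul_inv]
    rw [mul_comm] at h2
    exact (mul_eq_one_iff_eq_inv₀ h3).1 h2

theorem out_dep {X Z : K} (hX : TP X) (hZ : TP Z) (hX2 : 2 * X ≠ 1) (hZ2 : 2 * Z ≠ 1)
    (h1 : DepK X Z) (h2 : DepK X (1 - Z)) : Out X Z := by
  obtain ⟨N₁, a, b, hN1, e1⟩ := h1.rel hX hX2 hZ.ne
  obtain ⟨N₂, c, d, hN2, e2⟩ := h2.rel hX hX2 hZ.sub.ne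
  have hX0 := hX.ne
  have hY0 := hX.sub.ne
  have hdata : Data X Z (N₁ * N₂) (a * N₂) (b * N₂) (c * N₁) (d * N₁) := by
    refine ⟨hX, hZ, Nat.mul_pos hN1 hN2, ?_, ?_, ?_⟩
    · intro hD
      have hD' : a * d - b * c = 0 := by
        have h5 : (a * d - b * c) * ((N₁ : ℤ) * N₂) = 0 := by linear_combination hD
        rcases mul_eq_zero.1 h5 with h6 | h6
        · exact h6
        · exfalso
          rcases mul_eq_zero.1 h6 with h7 | h7 <;> omega
      have k1 : Z ^ (N₁ * d : ℤ) * (1 - Z) ^ (-(N₂ * b) : ℤ) = 1 := by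
        have g1 : Z ^ (N₁ * d : ℤ) = X ^ (a * d) * (1 - X) ^ (b * d) := by
          rw [zpow_mul, zpow_natCast, e1, mul_zpow, ← zpow_mul, ← zpow_mul]
        have g2 : (1 - Z) ^ (-(N₂ * b) : ℤ) = X ^ (-(c * b)) * (1 - X) ^ (-(d * b)) := by
          rw [← mul_neg, zpow_mul, zpow_natCast, e2, mul_zpow, ← zpow_mul, ← zpow_mul, mul_neg,
            mul_neg]
        rw [g1, g2]
        have g3 : X ^ (a * d) * (1 - X) ^ (b * d) * (X ^ (-(c * b)) * (1 - X) ^ (-(d * b))) =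
            X ^ (a * d + -(c * b)) * (1 - X) ^ (b * d + -(d * b)) := by
          rw [zpow_add₀ hX0, zpow_add₀ hY0]; ring
        rw [g3]
        have g4 : b * d + -(d * b) = 0 := by ring
        have g5 : a * d + -(c * b) = 0 := by linarith
        rw [g4, g5, zpow_zero, zpow_zero, mul_one]
      have k2 : Z ^ (N₁ * c : ℤ) * (1 - Z) ^ (-(N₂ * a) : ℤ) = 1 := by
        have g1 : Z ^ (N₁ * c : ℤ) = X ^ (a * c) * (1 - X) ^ (b * c) := by
          rw [zpow_mul, zpow_natCast, e1, mul_zpow, ← zpow_mul, ← zpow_mul]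
        have g2 : (1 - Z) ^ (-(N₂ * a) : ℤ) = X ^ (-(c * a)) * (1 - X) ^ (-(d * a)) := by
          rw [← mul_neg, zpow_mul, zpow_natCast, e2, mul_zpow, ← zpow_mul, ← zpow_mul, mul_neg,
            mul_neg]
        rw [g1, g2]
        have g3 : X ^ (a * c) * (1 - X) ^ (b * c) * (X ^ (-(c * a)) * (1 - X) ^ (-(d * a))) =
            X ^ (a * c + -(c * a)) * (1 - X) ^ (b * c + -(d * a)) := by
          rw [zpow_add₀ hX0, zpow_add₀ hY0]; ring
        rw [g3]
        have g4 : b * c + -(d * a) = 0 := by linarith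
        have g5 : a * c + -(c * a) = 0 := by ring
        rw [g4, g5, zpow_zero, zpow_zero, mul_one]
      obtain ⟨f1, f2⟩ := indepK hZ hZ2 _ _ k1
      obtain ⟨f3, f4⟩ := indepK hZ hZ2 _ _ k2
      have ha : a = 0 := by
        rcases mul_eq_zero.1 (neg_eq_zero.1 f4) with h7 | h7
        · omega
        · exact h7
      have hb : b = 0 := by
        rcases mul_eq_zero.1 (neg_eq_zero.1 f2) with h7 | h7
        · omega
        · exact h7
      subst ha hb
      rw [zpow_zero, zpow_zero, mul_one] at e1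
      have := indepK hZ hZ2 N₁ 0 (by rw [zpow_zero, mul_one, zpow_natCast, e1])
      omega
    · rw [pow_mul, e1, mul_pow, ← zpow_natCast, ← zpow_natCast, ← zpow_mul, ← zpow_mul]
    · rw [mul_comm N₁ N₂, pow_mul, e2, mul_pow, ← zpow_natCast, ← zpow_natCast, ← zpow_mul,
        ← zpow_mul]
  exact out hdata hX2 hZ2

end K

/-! ## Any field -/

section Om

variable {Ω : Type*} [Field Ω] [CharZero Ω]

/-- an algebraic number all of whose conjugates are real numbers in `(0, 1)` -/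
def TPa (x : Ω) : Prop :=
  IsAlgebraic ℚ x ∧ ∀ z : ℂ, aeval z (minpoly ℚ x) = 0 → ∃ r : ℝ, z = r ∧ 0 < r ∧ r < 1

theorem TP_ofΩ {K : IntermediateField ℚ Ω} {X : K} (h : TPa (X : Ω)) : TP X := by
  intro σ
  apply h.2
  have h1 : minpoly ℚ (X : Ω) = minpoly ℚ X :=
    minpoly.algebraMap_eq (algebraMap K Ω).injective X
  rw [h1]
  have h2 : aeval (σ.toRatAlgHom X) (minpoly ℚ X) = σ.toRatAlgHom (aeval X (minpoly ℚ X)) :=
    Polynomial.aeval_algHom_apply _ _ _
  rw [minpoly.aeval, map_zero] at h2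
  exact h2

theorem Ω_fin {x y : Ω} (hx : IsAlgebraic ℚ x) (hy : IsAlgebraic ℚ y) :
    NumberField (IntermediateField.adjoin ℚ {x, y}) := by
  haveI : FiniteDimensional ℚ (IntermediateField.adjoin ℚ {x, y}) := by
    apply IntermediateField.finiteDimensional_adjoin
    rintro z (rfl | rfl)
    · exact hx.isIntegral
    · exact hy.isIntegral
  exact { to_charZero := inferInstance, to_finiteDimensional := inferInstance }

/-- the relations -/
def DepΩ (x z : Ω) : Prop := ∃ k l m : ℤ, (k ≠ 0 ∨ l ≠ 0 ∨ m ≠ 0) ∧ x ^ k * (1 - x) ^ l * z ^ m = 1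

theorem classify {x z : Ω} (hx : TPa x) (hz : TPa z) (hx2 : 2 * x ≠ 1) (hz2 : 2 * z ≠ 1)
    (h1 : DepΩ x z) (h2 : DepΩ x (1 - z)) : z = x ∨ z = 1 - x ∨
      (∃ p q : ℚ, (p : Ω) = x ∧ (q : Ω) = z) ∨
      (5 * (x * (1 - x)) = 1 ∧ 125 * (z * (1 - z)) = 1) ∨
      (125 * (x * (1 - x)) = 1 ∧ 5 * (z * (1 - z)) = 1) := by
  haveI := Ω_fin hx.1 hz.1
  let X : IntermediateField.adjoin ℚ {x, z} := ⟨x, IntermediateField.subset_adjoin _ _ (by simp)⟩
  let Z : IntermediateField.adjoin ℚ {x, z} := ⟨z, IntermediateField.subset_adjoin _ _ (by simp)⟩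
  have d1 : DepK X Z := by
    obtain ⟨k, l, m, e1, e2⟩ := h1
    refine ⟨k, l, m, e1, ?_⟩
    apply Subtype.ext
    push_cast
    exact e2
  have d2 : DepK X (1 - Z) := by
    obtain ⟨k, l, m, e1, e2⟩ := h2
    refine ⟨k, l, m, e1, ?_⟩
    apply Subtype.ext
    push_cast
    exact e2
  have m2 : ∀ Y : IntermediateField.adjoin ℚ {x, z}, 2 * (Y : Ω) ≠ 1 → 2 * Y ≠ 1 := by
    intro Y hY h
    apply hY
    have := congrArg (algebraMap (IntermediateField.adjoin ℚ {x, z}) Ω) h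
    rw [map_mul, map_one, map_ofNat] at this
    exact this
  have cst : ∀ (Y : IntermediateField.adjoin ℚ {x, z}) (n : ℕ) , (n : IntermediateField.adjoin ℚ {x, z}) * (Y * (1 - Y)) = 1 →
      (n : Ω) * ((Y : Ω) * (1 - Y)) = 1 := by
    intro Y n h
    have := congrArg (algebraMap (IntermediateField.adjoin ℚ {x, z}) Ω) h
    rw [map_mul, map_one, map_natCast, map_mul, map_sub, map_one] at this
    exact this
  rcases out_dep (TP_ofΩ (X := X) hx) (TP_ofΩ (X := Z) hz) (m2 X hx2) (m2 Z hz2) d1 d2 with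
    h | h | ⟨p, q, h, h'⟩ | ⟨h, h'⟩ | ⟨h, h'⟩
  · left
    exact congrArg (algebraMap (IntermediateField.adjoin ℚ {x, z}) Ω) h
  · right; left
    have := congrArg (algebraMap (IntermediateField.adjoin ℚ {x, z}) Ω) h
    rw [map_sub, map_one] at this
    exact this
  · right; right; left
    refine ⟨p, q, ?_, ?_⟩
    · have := congrArg (algebraMap (IntermediateField.adjoin ℚ {x, z}) Ω) h
      rw [← IsScalarTower.algebraMap_apply] at this
      rw [eq_ratCast] at this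
      exact this
    · have := congrArg (algebraMap (IntermediateField.adjoin ℚ {x, z}) Ω) h'
      rw [← IsScalarTower.algebraMap_apply] at this
      rw [eq_ratCast] at this
      exact this
  · right; right; right; left
    refine ⟨?_, ?_⟩
    · exact_mod_cast cst X 5 (by exact_mod_cast h)
    · exact_mod_cast cst Z 125 (by exact_mod_cast h')
  · right; right; right; right
    refine ⟨?_, ?_⟩
    · exact_mod_cast cst X 125 (by exact_mod_cast h)
    · exact_mod_cast cst Z 5 (by exact_mod_cast h')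

theorem TPa.sub {x : Ω} (h : TPa x) : TPa (1 - x) := by
  haveI := Ω_fin h.1 h.1
  refine ⟨isAlgebraic_one.sub h.1, ?_⟩
  intro z hz
  let X : IntermediateField.adjoin ℚ {x, x} := ⟨x, IntermediateField.subset_adjoin _ _ (by simp)⟩
  have hX : TP X := TP_ofΩ (X := X) h
  have h1 : minpoly ℚ (1 - x) = minpoly ℚ (1 - X) := by
    have := minpoly.algebraMap_eq (A := ℚ) (algebraMap (IntermediateField.adjoin ℚ {x, x}) Ω).injective (1 - X)
    rw [← this]
    congr 1
  have h5 : z ∈ (minpoly ℚ (1 - X)).rootSet ℂ := by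
    rw [← h1, Polynomial.mem_rootSet]
    refine ⟨?_, hz⟩
    rw [h1]
    exact minpoly.ne_zero (Algebra.IsIntegral.isIntegral (1 - X))
  rw [← Embeddings.range_eval_eq_rootSet_minpoly _ ℂ (1 - X)] at h5
  obtain ⟨σ, hσ⟩ := h5
  obtain ⟨r, hr⟩ := hX.sub σ
  refine ⟨r, ?_, hr.2⟩
  rw [← hσ]
  exact hr.1

theorem TPa_ratCast {q : ℚ} (h : TPa (q : Ω)) : 0 < q ∧ q < 1 := by
  have h1 := h.2 (q : ℂ) (by
    have e : (q : Ω) = algebraMap ℚ Ω q := (eq_ratCast (algebraMap ℚ Ω) q).symm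
    rw [e, minpoly.eq_X_sub_C]
    simp)
  obtain ⟨r, h2, h3, h4⟩ := h1
  have h5 : (q : ℝ) = r := by exact_mod_cast h2
  rw [← h5] at h3 h4
  exact ⟨by exact_mod_cast h3, by exact_mod_cast h4⟩

theorem TPa_rat {q : ℚ} (h0 : 0 < q) (h1 : q < 1) : TPa (q : Ω) := by
  have e : (q : Ω) = algebraMap ℚ Ω q := (eq_ratCast (algebraMap ℚ Ω) q).symm
  refine ⟨by rw [e]; exact isAlgebraic_algebraMap q, ?_⟩
  intro z hz
  rw [e, minpoly.eq_X_sub_C, map_sub, aeval_X, aeval_C] at hz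
  refine ⟨(q : ℝ), ?_, by exact_mod_cast h0, by exact_mod_cast h1⟩
  have h3 : z = algebraMap ℚ ℂ q := sub_eq_zero.1 hz
  rw [h3]
  simp

end Om

end Pool.Agent.H80.F4
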