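import Pool.Agent.H80.F4.Place

set_option autoImplicit false

/-! # Two totally positive elements with multiplicatively dependent additive pairs (helper80) -/

namespace Pool.Agent.H80.F4

open NumberField IsDedekindDomain Polynomial

variable {K : Type*} [Field K] [NumberField K]

/-- the real number under an embedding -/
noncomputable def R (X : K) (σ : K →+* ℂ) : ℝ := (σ X).re

theorem TP.eq {X : K} (h : TP X) (σ : K →+* ℂ) : σ X = (R X σ : ℂ) := by
  obtain ⟨r, h1, -, -⟩ := h σ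
  unfold R
  rw [h1]
  simp

theorem TP.pos {X : K} (h : TP X) (σ : K →+* ℂ) : 0 < R X σ := by
  obtain ⟨r, h1, h2, -⟩ := h σ
  unfold R
  rw [h1]
  simpa using h2

theorem TP.lt {X : K} (h : TP X) (σ : K →+* ℂ) : R X σ < 1 := by
  obtain ⟨r, h1, -, h2⟩ := h σ
  unfold R
  rw [h1]
  simpa using h2

theorem R_sub (X : K) (σ : K →+* ℂ) : R (1 - X) σ = 1 - R X σ := by
  unfold R
  simp

theorem TP.sub {X : K} (h : TP X) : TP (1 - X) := by
  intro σ
  refine ⟨1 - R X σ, ?_, ?_, ?_⟩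
  · rw [map_sub, map_one, h.eq σ]; push_cast; rfl
  · linarith [h.lt σ]
  · linarith [h.pos σ]

theorem TP.ne {X : K} (h : TP X) : X ≠ 0 := by
  obtain ⟨σ⟩ : Nonempty (K →+* ℂ) := inferInstance
  rintro rfl
  have := h.pos σ
  unfold R at this
  simp at this

/-- the data of two dependent pairs -/
structure Data (X Z : K) (N : ℕ) (a b c d : ℤ) : Prop where
  hX : TP X
  hZ : TP Z
  hN : 0 < N
  hD : a * d - b * c ≠ 0
  h1 : Z ^ N = X ^ a * (1 - X) ^ b
  h2 : (1 - Z) ^ N = X ^ c * (1 - X) ^ d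

theorem Data.symZ {X Z : K} {N : ℕ} {a b c d : ℤ} (h : Data X Z N a b c d) :
    Data X (1 - Z) N c d a b where
  hX := h.hX
  hZ := h.hZ.sub
  hN := h.hN
  hD := by
    have := h.hD
    intro hc
    apply this
    linarith
  h1 := h.h2
  h2 := by rw [sub_sub_cancel]; exact h.h1

theorem Data.symX {X Z : K} {N : ℕ} {a b c d : ℤ} (h : Data X Z N a b c d) :
    Data (1 - X) Z N b a d c where
  hX := h.hX.sub
  hZ := h.hZ
  hN := h.hN
  hD := by
    have := h.hD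
    intro hc
    apply this
    linarith
  h1 := by rw [sub_sub_cancel, mul_comm]; exact h.h1
  h2 := by rw [sub_sub_cancel, mul_comm]; exact h.h2

theorem R_rel {X Z : K} (hX : TP X) (hZ : TP Z) {N : ℕ} {a b : ℤ}
    (h : Z ^ N = X ^ a * (1 - X) ^ b) (σ : K →+* ℂ) :
    N * Real.log (R Z σ) = a * Real.log (R X σ) + b * Real.log (1 - R X σ) := by
  have h1 := congrArg σ h
  rw [map_pow, map_mul, map_zpow₀, map_zpow₀, hX.eq σ, hZ.eq σ, map_sub, map_one, hX.eq σ] at h1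
  have h2 : (R Z σ) ^ N = (R X σ) ^ a * (1 - R X σ) ^ b := by exact_mod_cast h1
  exact Arch_rel (hX.pos σ) (by linarith [hX.lt σ]) N a b h2

theorem Data.r1 {X Z : K} {N : ℕ} {a b c d : ℤ} (h : Data X Z N a b c d) (σ : K →+* ℂ) :
    N * Real.log (R Z σ) = a * Real.log (R X σ) + b * Real.log (1 - R X σ) :=
  R_rel h.hX h.hZ h.h1 σ

theorem Data.r2 {X Z : K} {N : ℕ} {a b c d : ℤ} (h : Data X Z N a b c d) (σ : K →+* ℂ) :
    N * Real.log (1 - R Z σ) = c * Real.log (R X σ) + d * Real.log (1 - R X σ) := by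
  rw [← R_sub]
  exact R_rel h.hX h.hZ.sub h.h2 σ

theorem Data.v1 {X Z : K} {N : ℕ} {a b c d : ℤ} (h : Data X Z N a b c d)
    (v : HeightOneSpectrum (𝓞 K)) : N * Lg v Z = a * Lg v X + b * Lg v (1 - X) :=
  Lg_rel v X (1 - X) Z h.hX.ne h.hX.sub.ne N a b h.h1

theorem Data.v2 {X Z : K} {N : ℕ} {a b c d : ℤ} (h : Data X Z N a b c d)
    (v : HeightOneSpectrum (𝓞 K)) : N * Lg v (1 - Z) = c * Lg v X + d * Lg v (1 - X) :=
  Lg_rel v X (1 - X) (1 - Z) h.hX.ne h.hX.sub.ne N c d h.h2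

/-- the tropical line, integral -/
def T (x y : ℤ) : Prop := (x = y ∧ 0 ≤ x) ∨ (x = 0 ∧ y ≤ 0) ∨ (y = 0 ∧ x ≤ 0)

theorem T_of {N : ℕ} (hN : 0 < N) {t : ℝ} (ht : 0 < t) {u w : ℝ} {x y : ℤ}
    (h1 : N * u = x * t) (h2 : N * w = y * t)
    (h : (u = w ∧ 0 ≤ u) ∨ (u = 0 ∧ w ≤ 0) ∨ (w = 0 ∧ u ≤ 0)) : T x y := by
  have hN' : (0 : ℝ) < N := by exact_mod_cast hN
  have key0 : ∀ (r : ℝ) (z : ℤ), N * r = z * t → 0 ≤ r → 0 ≤ z := by
    intro r z hr h0
    have : (0 : ℝ) ≤ z * t := by rw [← hr]; positivity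
    have := nonneg_of_mul_nonneg_left this ht
    exact_mod_cast this
  have key1 : ∀ (r : ℝ) (z : ℤ), N * r = z * t → r ≤ 0 → z ≤ 0 := by
    intro r z hr h0
    have h3 := key0 (-r) (-z) (by push_cast; linarith) (by linarith)
    omega
  rcases h with ⟨h3, h4⟩ | ⟨h3, h4⟩ | ⟨h3, h4⟩
  · left
    refine ⟨?_, key0 u x h1 h4⟩
    rw [h3, h2] at h1
    have := mul_right_cancel₀ ht.ne' h1
    exact_mod_cast this.symm
  · right; left
    exact ⟨le_antisymm (key1 u x h1 h3.le) (key0 u x h1 h3.ge), key1 w y h2 h4⟩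
  · right; right
    exact ⟨le_antisymm (key1 w y h2 h3.le) (key0 w y h2 h3.ge), key1 u x h1 h4⟩

theorem Data.T3 {X Z : K} {N : ℕ} {a b c d : ℤ} (h : Data X Z N a b c d) : T (a + b) (c + d) := by
  obtain ⟨v, hv⟩ := exists_big X h.hX.ne h.hX
  have h1 : Lg v (1 - X) = Lg v X := by
    rcases trop v X h.hX.ne h.hX.sub.ne with ⟨h2, -⟩ | ⟨h2, -⟩ | ⟨-, h2⟩
    · exact h2.symm
    · linarith
    · linarith
  have e1 := h.v1 v
  have e2 := h.v2 v
  rw [h1] at e1 e2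
  exact T_of h.hN hv (by rw [e1]; push_cast; ring) (by rw [e2]; push_cast; ring)
    (trop v Z h.hZ.ne h.hZ.sub.ne)

theorem Data.T1 {X Z : K} {N : ℕ} {a b c d : ℤ} (h : Data X Z N a b c d)
    (h0 : ∃ v : HeightOneSpectrum (𝓞 K), Lg v X < 0) : T (-a) (-c) := by
  obtain ⟨v, hv⟩ := h0
  have h1 : Lg v (1 - X) = 0 := by
    rcases trop v X h.hX.ne h.hX.sub.ne with ⟨-, h2⟩ | ⟨h2, -⟩ | ⟨h2, -⟩
    · linarith
    · linarith
    · exact h2
  have e1 := h.v1 v
  have e2 := h.v2 v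
  rw [h1] at e1 e2
  exact T_of h.hN (neg_pos.2 hv) (by rw [e1]; push_cast; ring) (by rw [e2]; push_cast; ring)
    (trop v Z h.hZ.ne h.hZ.sub.ne)

theorem Data.T2 {X Z : K} {N : ℕ} {a b c d : ℤ} (h : Data X Z N a b c d)
    (h0 : ∃ v : HeightOneSpectrum (𝓞 K), Lg v (1 - X) < 0) : T (-b) (-d) :=
  h.symX.T1 h0

theorem Data.pos1 {X Z : K} {N : ℕ} {a b c d : ℤ} (h : Data X Z N a b c d) : 0 < a ∨ 0 < b := by
  by_contra hcon
  push Not at hcon
  obtain ⟨h1, h2⟩ := hcon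
  obtain ⟨σ⟩ : Nonempty (K →+* ℂ) := inferInstance
  have e1 := h.r1 σ
  have hN' : (0 : ℝ) < N := by exact_mod_cast h.hN
  have l1 : Real.log (R Z σ) < 0 := Real.log_neg (h.hZ.pos σ) (h.hZ.lt σ)
  have l2 : Real.log (R X σ) < 0 := Real.log_neg (h.hX.pos σ) (h.hX.lt σ)
  have l3 : Real.log (1 - R X σ) < 0 :=
    Real.log_neg (by linarith [h.hX.lt σ]) (by linarith [h.hX.pos σ])
  have h1' : (a : ℝ) ≤ 0 := by exact_mod_cast h1
  have h2' : (b : ℝ) ≤ 0 := by exact_mod_cast h2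
  have := mul_nonneg_of_nonpos_of_nonpos h1' l2.le
  have := mul_nonneg_of_nonpos_of_nonpos h2' l3.le
  have := mul_neg_of_pos_of_neg hN' l1
  linarith

theorem Data.pos2 {X Z : K} {N : ℕ} {a b c d : ℤ} (h : Data X Z N a b c d) : 0 < c ∨ 0 < d :=
  h.symZ.pos1

/-! ## Case II: both kinds of small places -/

theorem rpow_sum {r l : ℝ} (h0 : 0 < r) (h1 : r < 1) (h : r ^ l + (1 - r) ^ l = 1) : l = 1 := by
  rcases lt_trichotomy l 1 with hl | hl | hl
  · have e1 : r ^ (1 : ℝ) < r ^ l := Real.rpow_lt_rpow_of_exponent_gt h0 h1 hl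
    have e2 : (1 - r) ^ (1 : ℝ) < (1 - r) ^ l :=
      Real.rpow_lt_rpow_of_exponent_gt (by linarith) (by linarith) hl
    rw [Real.rpow_one] at e1 e2
    linarith
  · exact hl
  · have e1 : r ^ l < r ^ (1 : ℝ) := Real.rpow_lt_rpow_of_exponent_gt h0 h1 hl
    have e2 : (1 - r) ^ l < (1 - r) ^ (1 : ℝ) :=
      Real.rpow_lt_rpow_of_exponent_gt (by linarith) (by linarith) hl
    rw [Real.rpow_one] at e1 e2
    linarith

theorem diag_case {X Z : K} {N : ℕ} {m : ℤ} (h : Data X Z N m 0 0 m) (σ : K →+* ℂ) :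
    R Z σ = R X σ := by
  have e1 := h.r1 σ
  have e2 := h.r2 σ
  have hN' : (0 : ℝ) < N := by exact_mod_cast h.hN
  have p1 := h.hX.pos σ
  have p2 := h.hX.lt σ
  have p3 := h.hZ.pos σ
  have p4 := h.hZ.lt σ
  have f1 : R Z σ = R X σ ^ ((m : ℝ) / N) := by
    rw [Real.rpow_def_of_pos p1, ← Real.exp_log p3]
    congr 1
    field_simp
    push_cast at e1
    linarith
  have f2 : 1 - R Z σ = (1 - R X σ) ^ ((m : ℝ) / N) := by
    rw [Real.rpow_def_of_pos (by linarith), ← Real.exp_log (by linarith : 0 < 1 - R Z σ)]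
    congr 1
    field_simp
    push_cast at e2
    linarith
  have f3 := rpow_sum p1 p2 (by rw [← f1, ← f2]; ring)
  rw [f1, f3, Real.rpow_one]

theorem caseII {X Z : K} {N : ℕ} {a b c d : ℤ} (h : Data X Z N a b c d)
    (h1 : ∃ v : HeightOneSpectrum (𝓞 K), Lg v X < 0)
    (h2 : ∃ v : HeightOneSpectrum (𝓞 K), Lg v (1 - X) < 0) (σ : K →+* ℂ) :
    R Z σ = R X σ ∨ R Z σ = 1 - R X σ := by
  have t1 := h.T1 h1
  have t2 := h.T2 h2
  have t3 := h.T3
  have q1 := h.pos1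
  have q2 := h.pos2
  have hD := h.hD
  have hab : ¬ (a = c ∧ b = d) := by
    rintro ⟨rfl, rfl⟩
    exact hD (by ring)
  have hac : ¬ (a = 0 ∧ c = 0) := by
    rintro ⟨rfl, rfl⟩
    exact hD (by ring)
  have hbd : ¬ (b = 0 ∧ d = 0) := by
    rintro ⟨rfl, rfl⟩
    exact hD (by ring)
  have key : (b = 0 ∧ c = 0 ∧ a = d) ∨ (a = 0 ∧ d = 0 ∧ b = c) := by
    unfold T at t1 t2 t3
    omega
  rcases key with ⟨rfl, rfl, rfl⟩ | ⟨rfl, rfl, rfl⟩
  · left; exact diag_case h σ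
  · right
    have := diag_case h.symZ σ
    rw [R_sub] at this
    linarith

/-! ## Case III: exactly one kind of small places -/

theorem real_i {x z : ℝ} (hx0 : 0 < x) (hx1 : x < 1) (hz0 : 0 < z) (hz1 : z < 1) {N : ℕ}
    (hN : 0 < N) {a b d : ℝ} (hd : d = a + b) (h1 : N * Real.log z = a * Real.log x + b * Real.log (1 - x))
    (h2 : N * Real.log (1 - z) = d * Real.log (1 - x)) :
    (1 + x / (1 - x)) ^ (d / N) = 1 + (x / (1 - x)) ^ (a / N) := by
  have hN' : (0 : ℝ) < N := by exact_mod_cast hN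
  have hy : 0 < 1 - x := by linarith
  have hz' : 0 < 1 - z := by linarith
  have e1 : (x / (1 - x)) ^ (a / N) = z / (1 - z) := by
    rw [Real.rpow_def_of_pos (by positivity), ← Real.exp_log (by positivity : 0 < z / (1 - z))]
    congr 1
    rw [Real.log_div hx0.ne' hy.ne', Real.log_div hz0.ne' hz'.ne']
    field_simp
    subst hd
    linarith
  have e2 : 1 + x / (1 - x) = 1 / (1 - x) := by
    field_simp
    ring
  have e3 : (1 / (1 - x)) ^ (d / N) = 1 / (1 - z) := by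
    rw [Real.rpow_def_of_pos (by positivity), ← Real.exp_log (by positivity : 0 < 1 / (1 - z))]
    congr 1
    rw [Real.log_div one_ne_zero hy.ne', Real.log_div one_ne_zero hz'.ne',
      Real.log_one]
    field_simp
    linarith
  rw [e1, e2, e3]
  field_simp
  ring

theorem real_ii {x z : ℝ} (hx0 : 0 < x) (hx1 : x < 1) (hz0 : 0 < z) (hz1 : z < 1) {N : ℕ}
    (hN : 0 < N) {g b : ℝ} (h1 : N * Real.log z = -g * Real.log x + b * Real.log (1 - x))
    (h2 : N * Real.log (1 - z) = -g * Real.log x + g * Real.log (1 - x)) :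
    (x / (1 - x)) ^ (g / N) = 1 + (1 + x / (1 - x)) ^ ((g - b) / N) := by
  have hN' : (0 : ℝ) < N := by exact_mod_cast hN
  have hy : 0 < 1 - x := by linarith
  have hz' : 0 < 1 - z := by linarith
  have e1 : (x / (1 - x)) ^ (g / N) = 1 / (1 - z) := by
    rw [Real.rpow_def_of_pos (by positivity), ← Real.exp_log (by positivity : 0 < 1 / (1 - z))]
    congr 1
    rw [Real.log_div hx0.ne' hy.ne', Real.log_div one_ne_zero hz'.ne',
      Real.log_one]
    field_simp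
    linarith
  have e2 : 1 + x / (1 - x) = 1 / (1 - x) := by
    field_simp
    ring
  have e3 : (1 / (1 - x)) ^ ((g - b) / N) = z / (1 - z) := by
    rw [Real.rpow_def_of_pos (by positivity), ← Real.exp_log (by positivity : 0 < z / (1 - z))]
    congr 1
    rw [Real.log_div one_ne_zero hy.ne', Real.log_div hz0.ne' hz'.ne',
      Real.log_one]
    field_simp
    linarith
  rw [e1, e2, e3]
  field_simp
  ring

theorem div_inj {x u : ℝ} (hx1 : x < 1) (hu1 : u < 1) (h : x / (1 - x) = u / (1 - u)) : x = u := by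
  rw [div_eq_div_iff (by linarith) (by linarith)] at h
  linarith

/-- rationality of both -/
theorem both_rat {X Z : K} {N : ℕ} {a b c d : ℤ} (h : Data X Z N a b c d)
    (hc : ∀ σ τ : K →+* ℂ, R X σ = R X τ) :
    ∃ p q : ℚ, algebraMap ℚ K p = X ∧ algebraMap ℚ K q = Z := by
  obtain ⟨σ₀⟩ : Nonempty (K →+* ℂ) := inferInstance
  obtain ⟨p, hp⟩ := rat_of_const X (R X σ₀) (fun σ => by rw [h.hX.eq σ, hc σ σ₀])
  have h1 : ∀ σ : K →+* ℂ, R Z σ = R Z σ₀ := by
    intro σ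
    have e1 := h.r1 σ
    have e2 := h.r1 σ₀
    rw [hc σ σ₀, ← e2] at e1
    have hN' : (N : ℝ) ≠ 0 := by exact_mod_cast h.hN.ne'
    have e3 := mul_left_cancel₀ hN' e1
    exact Real.log_injOn_pos (h.hZ.pos σ) (h.hZ.pos σ₀) e3
  obtain ⟨q, hq⟩ := rat_of_const Z (R Z σ₀) (fun σ => by rw [h.hZ.eq σ, h1 σ])
  exact ⟨p, q, hp, hq⟩

theorem rat_symZ {X Z : K} (h : ∃ p q : ℚ, algebraMap ℚ K p = X ∧ algebraMap ℚ K q = 1 - Z) :
    ∃ p q : ℚ, algebraMap ℚ K p = X ∧ algebraMap ℚ K q = Z := by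
  obtain ⟨p, q, h1, h2⟩ := h
  exact ⟨p, 1 - q, h1, by rw [map_sub, map_one, h2]; ring⟩

theorem rat_symX {X Z : K} (h : ∃ p q : ℚ, algebraMap ℚ K p = 1 - X ∧ algebraMap ℚ K q = Z) :
    ∃ p q : ℚ, algebraMap ℚ K p = X ∧ algebraMap ℚ K q = Z := by
  obtain ⟨p, q, h1, h2⟩ := h
  exact ⟨1 - p, q, by rw [map_sub, map_one, h1]; ring, h2⟩

theorem caseIII_a {X Z : K} {N : ℕ} {a b d : ℤ} (h : Data X Z N a b 0 d) (ha : 0 < a)
    (hd : d = a + b) (hd0 : 0 < d) (σ₀ : K →+* ℂ) :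
    (∃ p q : ℚ, algebraMap ℚ K p = X ∧ algebraMap ℚ K q = Z) ∨ R Z σ₀ = R X σ₀ := by
  have hN' : (0 : ℝ) < N := by exact_mod_cast h.hN
  have ha' : (0 : ℝ) < a := by exact_mod_cast ha
  have hd' : (0 : ℝ) < d := by exact_mod_cast hd0
  have key : ∀ σ : K →+* ℂ, (1 + R X σ / (1 - R X σ)) ^ ((d : ℝ) / N) =
      1 + (R X σ / (1 - R X σ)) ^ ((a : ℝ) / N) := by
    intro σ
    refine real_i (h.hX.pos σ) (h.hX.lt σ) (h.hZ.pos σ) (h.hZ.lt σ) h.hN (b := b)
      (by rw [hd]; push_cast; ring) (h.r1 σ) ?_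
    have := h.r2 σ
    push_cast at this
    linarith
  have hpos : ∀ σ : K →+* ℂ, 0 < R X σ / (1 - R X σ) := fun σ =>
    div_pos (h.hX.pos σ) (by linarith [h.hX.lt σ])
  by_cases hall : ∀ σ τ : K →+* ℂ, R X σ = R X τ
  · left; exact both_rat h hall
  · right
    push Not at hall
    obtain ⟨σ, τ, hστ⟩ := hall
    rcases root_i (by positivity) (by positivity) (hpos σ) (hpos τ) (key σ) (key τ) with h3 | ⟨h3, h4⟩
    · exact (hστ (div_inj (h.hX.lt σ) (h.hX.lt τ) h3)).elim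
    · have e1 : (a : ℝ) = N := by
        field_simp at h3
        exact h3
      have e2 : (d : ℝ) = N := by
        field_simp at h4
        exact h4
      have e3 : b = 0 := by
        have : (a : ℝ) = d := by rw [e1, e2]
        have : a = d := by exact_mod_cast this
        omega
      have e4 := h.r1 σ₀
      rw [e3, e1] at e4
      push_cast at e4
      rw [zero_mul, add_zero] at e4
      exact Real.log_injOn_pos (h.hZ.pos σ₀) (h.hX.pos σ₀) (mul_left_cancel₀ hN'.ne' e4)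

theorem caseIII_b {X Z : K} {N : ℕ} {g b : ℤ} (h : Data X Z N (-g) b (-g) g) (hg : 0 < g)
    (hb : b < g) :
    ∃ p q : ℚ, algebraMap ℚ K p = X ∧ algebraMap ℚ K q = Z := by
  have hN' : (0 : ℝ) < N := by exact_mod_cast h.hN
  have hg' : (0 : ℝ) < g := by exact_mod_cast hg
  have hb' : (0 : ℝ) < (g : ℝ) - b := by
    have : (b : ℝ) < g := by exact_mod_cast hb
    linarith
  have key : ∀ σ : K →+* ℂ, (R X σ / (1 - R X σ)) ^ ((g : ℝ) / N) =
      1 + (1 + R X σ / (1 - R X σ)) ^ (((g : ℝ) - b) / N) := by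
    intro σ
    refine real_ii (h.hX.pos σ) (h.hX.lt σ) (h.hZ.pos σ) (h.hZ.lt σ) h.hN ?_ ?_
    · have := h.r1 σ
      push_cast at this
      linarith
    · have := h.r2 σ
      push_cast at this
      linarith
  have hpos : ∀ σ : K →+* ℂ, 0 < R X σ / (1 - R X σ) := fun σ =>
    div_pos (h.hX.pos σ) (by linarith [h.hX.lt σ])
  apply both_rat h
  intro σ τ
  exact div_inj (h.hX.lt σ) (h.hX.lt τ)
    (root_ii (by positivity) (by positivity) (hpos σ) (hpos τ) (key σ) (key τ))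

theorem caseIII {X Z : K} {N : ℕ} {a b c d : ℤ} (h : Data X Z N a b c d)
    (h1 : ∃ v : HeightOneSpectrum (𝓞 K), Lg v X < 0)
    (h2 : ∀ v : HeightOneSpectrum (𝓞 K), 0 ≤ Lg v (1 - X)) (σ₀ : K →+* ℂ) :
    (∃ p q : ℚ, algebraMap ℚ K p = X ∧ algebraMap ℚ K q = Z) ∨
    R Z σ₀ = R X σ₀ ∨ R Z σ₀ = 1 - R X σ₀ := by
  have t1 := h.T1 h1
  have t3 := h.T3
  have hD := h.hD
  have hab : ¬ (a = c ∧ b = d) := by
    rintro ⟨rfl, rfl⟩
    exact hD (by ring)
  have hac : ¬ (a = 0 ∧ c = 0) := by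
    rintro ⟨rfl, rfl⟩
    exact hD (by ring)
  have hbig : (a + b = c + d ∧ 0 < a + b) ∨ (a = c ∧ a < 0) := by
    obtain ⟨v, hv⟩ := exists_big Z h.hZ.ne h.hZ
    have hN' : (0 : ℝ) < N := by exact_mod_cast h.hN
    have e0 : Lg v (1 - Z) = Lg v Z := by
      rcases trop v Z h.hZ.ne h.hZ.sub.ne with ⟨h2, -⟩ | ⟨h2, -⟩ | ⟨-, h2⟩
      · exact h2.symm
      · linarith
      · linarith
    have e1 := h.v1 v
    have e2 := h.v2 v
    rw [e0] at e2
    have hpos : 0 < (N : ℝ) * Lg v Z := by positivity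
    rcases trop v X h.hX.ne h.hX.sub.ne with ⟨h3, h4⟩ | ⟨h3, h4⟩ | ⟨h3, h4⟩
    · left
      rw [← h3] at e1 e2
      have e3 : (0 : ℝ) < (a + b) * Lg v X := by rw [e1] at hpos; linarith
      have e4 : ((a : ℝ) + b) * Lg v X = (c + d) * Lg v X := by linarith
      have e5 : 0 < Lg v X := by
        rcases h4.eq_or_lt with h5 | h5
        · rw [← h5] at e3; simp at e3
        · exact h5
      have e6 : (0 : ℝ) < a + b := (pos_iff_pos_of_mul_pos e3).2 e5
      have e7 := mul_right_cancel₀ e5.ne' e4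
      exact ⟨by exact_mod_cast e7, by exact_mod_cast e6⟩
    · have h5 := h2 v
      have h6 : Lg v (1 - X) = 0 := le_antisymm h4 h5
      rw [h3, h6] at e1
      simp at e1
      rcases e1 with e1 | e1
      · exact absurd e1 h.hN.ne'
      · linarith
    · right
      rw [h3] at e1 e2
      rw [mul_zero, add_zero] at e1 e2
      have e5 : Lg v X < 0 := by
        rcases h4.eq_or_lt with h5 | h5
        · rw [h5, mul_zero] at e1; linarith
        · exact h5
      have e6 : (a : ℝ) * Lg v X = c * Lg v X := by rw [← e1, ← e2]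
      have e7 := mul_right_cancel₀ e5.ne e6
      refine ⟨by exact_mod_cast e7, ?_⟩
      rw [e1] at hpos
      by_contra hcon
      push Not at hcon
      have : (0 : ℝ) ≤ a := by exact_mod_cast hcon
      have := mul_nonpos_of_nonneg_of_nonpos this e5.le
      linarith
  have key : (c = 0 ∧ 0 < a ∧ d = a + b ∧ 0 < d) ∨ (a = 0 ∧ 0 < c ∧ b = c + d ∧ 0 < b) ∨
      (a = c ∧ a < 0 ∧ d = -a ∧ b < -a) ∨ (a = c ∧ a < 0 ∧ b = -a ∧ d < -a) := by
    unfold T at t1 t3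
    omega
  rcases key with ⟨rfl, k1, k2, k3⟩ | ⟨rfl, k1, k2, k3⟩ | ⟨rfl, k1, rfl, k3⟩ | ⟨rfl, k1, rfl, k3⟩
  · rcases caseIII_a h k1 k2 k3 σ₀ with h3 | h3
    · left; exact h3
    · right; left; exact h3
  · rcases caseIII_a h.symZ k1 k2 k3 σ₀ with h3 | h3
    · left; exact rat_symZ h3
    · right; right
      rw [R_sub] at h3
      linarith
  · left
    exact caseIII_b (g := -a) (by rw [neg_neg]; exact h) (by omega) k3
  · left
    apply rat_symZ
    exact caseIII_b (g := -a) (by rw [neg_neg]; exact h.symZ) (by omega) k3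

end Pool.Agent.H80.F4
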