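import Pool.Agent.H80.F4.Core1

set_option autoImplicit false

/-! # Case I: quotients of additive pairs that are units (helper80) -/

namespace Pool.Agent.H80.F4

open NumberField IsDedekindDomain Polynomial

variable {K : Type*} [Field K] [NumberField K]

theorem Lg_mul (v : HeightOneSpectrum (𝓞 K)) {X Y : K} (hX : X ≠ 0) (hY : Y ≠ 0) :
    Lg v (X * Y) = Lg v X + Lg v Y := by
  unfold Lg
  rw [map_mul, Real.log_mul ((HeightOneSpectrum.adicAbv K v).pos hX).ne'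
    ((HeightOneSpectrum.adicAbv K v).pos hY).ne']

theorem Lg_inv (v : HeightOneSpectrum (𝓞 K)) (X : K) : Lg v X⁻¹ = - Lg v X := by
  unfold Lg
  rw [map_inv₀, Real.log_inv]

theorem Lg_zpow (v : HeightOneSpectrum (𝓞 K)) (X : K) (n : ℤ) : Lg v (X ^ n) = n * Lg v X := by
  unfold Lg
  rw [map_zpow₀, Real.log_zpow]

theorem exists_gt_one (S : K) (hS : IsIntegral ℤ S) (s : (K →+* ℂ) → ℝ) (hs : ∀ σ, σ S = s σ)
    (hpos : ∀ σ, 0 < s σ) (σ₀ : K →+* ℂ) (h0 : s σ₀ < 1) : ∃ σ, 1 < s σ := by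
  by_contra hcon
  push Not at hcon
  obtain ⟨n, hn⟩ := norm_int S hS
  have h1 := Algebra.norm_eq_prod_embeddings (K := ℚ) (L := K) ℂ S
  rw [hn] at h1
  have h2 : ∏ σ : K →ₐ[ℚ] ℂ, σ S = ((∏ σ : K →ₐ[ℚ] ℂ, s σ.toRingHom : ℝ) : ℂ) := by
    push_cast
    exact Finset.prod_congr rfl fun σ _ => hs σ.toRingHom
  rw [h2] at h1
  have h3 : (n : ℝ) = ∏ σ : K →ₐ[ℚ] ℂ, s σ.toRingHom := by
    have h4 : ((n : ℝ) : ℂ) = ((∏ σ : K →ₐ[ℚ] ℂ, s σ.toRingHom : ℝ) : ℂ) := by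
      rw [← h1]
      simp
    exact_mod_cast h4
  have h5 : 0 < ∏ σ : K →ₐ[ℚ] ℂ, s σ.toRingHom := Finset.prod_pos fun σ _ => hpos σ.toRingHom
  have h6 : ∏ σ : K →ₐ[ℚ] ℂ, s σ.toRingHom < 1 := by
    have h7 := Finset.prod_lt_prod (s := (Finset.univ : Finset (K →ₐ[ℚ] ℂ)))
      (f := fun σ => s σ.toRingHom) (g := fun _ => (1 : ℝ)) (fun σ _ => hpos σ.toRingHom)
      (fun σ _ => hcon σ.toRingHom) ⟨σ₀.toRatAlgHom, Finset.mem_univ _, h0⟩
    simpa using h7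
  rw [← h3] at h5 h6
  have h7 : 0 < n := by exact_mod_cast h5
  have h8 : n < 1 := by exact_mod_cast h6
  omega

theorem cosh_id {x : ℝ} (h0 : 0 < x) (h1 : x < 1) :
    x * (1 - x) * (2 + 2 * Real.cosh (Real.log (x / (1 - x)))) = 1 := by
  have hy : 0 < 1 - x := by linarith
  rw [Real.cosh_log (by positivity)]
  field_simp
  ring

/-- the unit of the pair -/
noncomputable def Q (X : K) : K := X * (1 - X)⁻¹

/-- its logarithm under an embedding -/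
noncomputable def lq (X : K) (σ : K →+* ℂ) : ℝ := Real.log (R X σ / (1 - R X σ))

theorem lq_eq {X : K} (h : TP X) (σ : K →+* ℂ) : lq X σ = Real.log (R X σ) - Real.log (1 - R X σ) := by
  unfold lq
  rw [Real.log_div (h.pos σ).ne' (by linarith [h.lt σ])]

theorem Q_emb {X : K} (h : TP X) (σ : K →+* ℂ) : σ (Q X) = (Real.exp (lq X σ) : ℂ) := by
  unfold Q lq
  have hpos : 0 < R X σ / (1 - R X σ) := div_pos (h.pos σ) (by linarith [h.lt σ])
  rw [map_mul, map_inv₀, map_sub, map_one, h.eq σ, Real.exp_log hpos]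
  push_cast
  rw [div_eq_mul_inv]

theorem Q_ne {X : K} (h : TP X) : Q X ≠ 0 := mul_ne_zero h.ne (inv_ne_zero h.sub.ne)

theorem l1_lq {X : K} (h : TP X) (σ : K →+* ℂ) : l1 (lq X σ) = - Real.log (1 - R X σ) := by
  unfold l1 lq
  have hy : 0 < 1 - R X σ := by linarith [h.lt σ]
  have hpos : 0 < R X σ / (1 - R X σ) := div_pos (h.pos σ) hy
  rw [Real.exp_log hpos, ← Real.log_inv]
  congr 1
  field_simp
  ring

theorem Lg_Q {X : K} (h : TP X) (v : HeightOneSpectrum (𝓞 K)) (he : Lg v X = Lg v (1 - X)) :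
    Lg v (Q X) = 0 := by
  unfold Q
  rw [Lg_mul v h.ne (inv_ne_zero h.sub.ne), Lg_inv, he]
  ring

theorem caseI {X Z : K} {N : ℕ} {a b c d : ℤ} (h : Data X Z N a b c d)
    (hx : ∀ v : HeightOneSpectrum (𝓞 K), 0 ≤ Lg v X)
    (hy : ∀ v : HeightOneSpectrum (𝓞 K), 0 ≤ Lg v (1 - X)) (σ₀ : K →+* ℂ)
    (h1 : R Z σ₀ < R X σ₀) (h2 : R X σ₀ < 1 / 2) :
    R X σ₀ * (1 - R X σ₀) = 1 / 5 ∧ R Z σ₀ * (1 - R Z σ₀) = 1 / 125 := by
  have hN' : (0 : ℝ) < N := by exact_mod_cast h.hN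
  -- finite places
  have s1 : ∀ v : HeightOneSpectrum (𝓞 K), Lg v X = Lg v (1 - X) := by
    intro v
    rcases trop v X h.hX.ne h.hX.sub.ne with ⟨h3, -⟩ | ⟨h3, h4⟩ | ⟨h3, h4⟩
    · exact h3
    · rw [h3]; exact le_antisymm (hy v) h4
    · rw [h3]; exact le_antisymm h4 (hx v)
  have s2 : a + b = c + d ∧ 0 < c + d := by
    obtain ⟨v, hv⟩ := exists_big Z h.hZ.ne h.hZ
    have e0 : Lg v (1 - Z) = Lg v Z := by
      rcases trop v Z h.hZ.ne h.hZ.sub.ne with ⟨h2, -⟩ | ⟨h2, -⟩ | ⟨-, h2⟩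
      · exact h2.symm
      · linarith
      · linarith
    have e1 := h.v1 v
    have e2 := h.v2 v
    rw [e0, ← s1 v] at e2
    rw [← s1 v] at e1
    have hpos : 0 < (N : ℝ) * Lg v Z := by positivity
    have e3 : (0 : ℝ) < (c + d) * Lg v X := by rw [e2] at hpos; linarith
    have e4 : ((a : ℝ) + b) * Lg v X = (c + d) * Lg v X := by linarith
    have e5 : 0 < Lg v X := by
      rcases (hx v).eq_or_lt with h5 | h5
      · rw [← h5] at e3; simp at e3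
      · exact h5
    have e6 : (0 : ℝ) < c + d := (pos_iff_pos_of_mul_pos e3).2 e5
    have e7 := mul_right_cancel₀ e5.ne' e4
    exact ⟨by exact_mod_cast e7, by exact_mod_cast e6⟩
  obtain ⟨s2, s3⟩ := s2
  have s4 : ∀ v : HeightOneSpectrum (𝓞 K), Lg v Z = Lg v (1 - Z) := by
    intro v
    have e1 := h.v1 v
    have e2 := h.v2 v
    rw [← s1 v] at e1 e2
    have e3 : (a : ℝ) + b = c + d := by exact_mod_cast s2
    have e4 : (N : ℝ) * Lg v Z = N * Lg v (1 - Z) := by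
      rw [e1, e2, ← add_mul, ← add_mul, e3]
    exact mul_left_cancel₀ hN'.ne' e4
  have u1 : ∀ v, Lg v (Q X) = 0 := fun v => Lg_Q h.hX v (s1 v)
  have u2 : ∀ v, Lg v (Q Z) = 0 := fun v => Lg_Q h.hZ v (s4 v)
  -- archimedean relations
  set ρ : ℝ := ((a : ℝ) - c) / N with hρ
  set κ : ℝ := ((c : ℝ) + d) / N with hκ
  set γ : ℝ := (c : ℝ) / N with hγ
  have e3 : (a : ℝ) + b = c + d := by exact_mod_cast s2
  have r1 : ∀ σ : K →+* ℂ, lq Z σ = ρ * lq X σ := by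
    intro σ
    rw [lq_eq h.hX, lq_eq h.hZ, hρ]
    have e1 := h.r1 σ
    have e2 := h.r2 σ
    field_simp
    have e4 : (b : ℝ) = c + d - a := by linarith
    rw [e4] at e1
    linarith
  have r2 : ∀ σ : K →+* ℂ, Ph ρ κ γ (lq X σ) = 0 := by
    intro σ
    unfold Ph
    rw [← r1 σ, l1_lq h.hX, l1_lq h.hZ, lq_eq h.hX, hκ, hγ]
    have e2 := h.r2 σ
    field_simp
    linarith
  have w0 : lq X σ₀ < 0 := by
    unfold lq
    apply Real.log_neg (div_pos (h.hX.pos σ₀) (by linarith))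
    rw [div_lt_one (by linarith)]
    linarith
  have w1 : lq Z σ₀ < lq X σ₀ := by
    unfold lq
    apply Real.log_lt_log (div_pos (h.hZ.pos σ₀) (by linarith))
    rw [div_lt_div_iff₀ (by linarith) (by linarith)]
    nlinarith
  have hρ1 : 1 < ρ := by
    rw [r1 σ₀] at w1
    by_contra hcon
    push Not at hcon
    have : 1 * lq X σ₀ ≤ ρ * lq X σ₀ := mul_le_mul_of_nonpos_right hcon w0.le
    linarith
  have iX : IsIntegral ℤ (Q X) := integral_of_le _ (Q_ne h.hX) fun v => (u1 v).le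
  have iX' : IsIntegral ℤ (Q X)⁻¹ := integral_of_le _ (inv_ne_zero (Q_ne h.hX)) fun v => by
    rw [Lg_inv, u1 v, neg_zero]
  obtain ⟨σ₁, hσ₁⟩ := exists_gt_one (Q X) iX (fun σ => Real.exp (lq X σ))
    (fun σ => Q_emb h.hX σ) (fun σ => Real.exp_pos _) σ₀ (by rwa [Real.exp_lt_one_iff])
  rw [Real.one_lt_exp_iff] at hσ₁
  have zz : ∀ σ : K →+* ℂ, lq X σ = lq X σ₁ ∨ lq X σ = lq X σ₀ := fun σ =>
    Ph_zeros hρ1 hσ₁ w0 (r2 σ₁) (r2 σ₀) _ (r2 σ)
  set W : ℝ := lq X σ₁ with hW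
  have hsym : lq X σ₀ = -W := by
    have h3 := unit_two (Q X) iX iX' (Q_ne h.hX) (Real.exp W) (Real.exp (lq X σ₀)) (Real.exp_pos _)
      (Real.exp_pos _) (by
        intro hc
        have := Real.exp_injective hc
        linarith) (fun σ => by
        rcases zz σ with h4 | h4
        · left; rw [Q_emb h.hX σ, h4]
        · right; rw [Q_emb h.hX σ, h4]) ⟨σ₁, Q_emb h.hX σ₁⟩
        ⟨σ₀, Q_emb h.hX σ₀⟩
    rw [← Real.exp_add, Real.exp_eq_one_iff] at h3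
    linarith
  have zz' : ∀ σ : K →+* ℂ, lq X σ = W ∨ lq X σ = -W := by
    intro σ
    rw [← hsym]
    exact zz σ
  have hcosh := Ph_sym (ρ := ρ) (κ := κ) (γ := γ) hσ₁.ne' (r2 σ₁) (by rw [← hsym]; exact r2 σ₀)
  -- the exponents in lowest terms
  have hac : 0 < a - c := by
    have h3 : (0 : ℝ) < ρ := by linarith
    rw [hρ, div_pos_iff_of_pos_right hN'] at h3
    have : (0 : ℝ) < ((a - c : ℤ) : ℝ) := by push_cast; exact h3
    exact_mod_cast this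
  obtain ⟨A, hA⟩ := Int.eq_ofNat_of_zero_le hac.le
  have hA0 : 0 < A := by omega
  have hAr : (A : ℝ) = a - c := by
    have : ((A : ℤ) : ℝ) = ((a - c : ℤ) : ℝ) := by rw [hA]
    push_cast at this
    exact this
  obtain ⟨g, k₁, k₂, hg0, hcop, hNg, hAg⟩ : ∃ g k₁ k₂ : ℕ, 0 < g ∧ k₁.Coprime k₂ ∧ N = g * k₁ ∧
      A = g * k₂ := by
    obtain ⟨k₁, h3⟩ := Nat.gcd_dvd_left N A
    obtain ⟨k₂, h4⟩ := Nat.gcd_dvd_right N A
    refine ⟨Nat.gcd N A, k₁, k₂, Nat.gcd_pos_of_pos_left _ h.hN, ?_, h3, h4⟩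
    have h5 : 0 < Nat.gcd N A := Nat.gcd_pos_of_pos_left _ h.hN
    have h6 : Nat.gcd (N.gcd A * k₁) (N.gcd A * k₂) = N.gcd A := by rw [← h3, ← h4]
    rw [Nat.gcd_mul_left] at h6
    exact Nat.eq_of_mul_eq_mul_left h5 (by rw [h6, mul_one])
  have hk1 : 0 < k₁ := by
    rcases Nat.eq_zero_or_pos k₁ with h3 | h3
    · rw [h3, mul_zero] at hNg
      exact absurd hNg h.hN.ne'
    · exact h3
  have hk1' : (0 : ℝ) < k₁ := by exact_mod_cast hk1
  have hg0' : (0 : ℝ) < g := by exact_mod_cast hg0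
  have hρk : ρ = (k₂ : ℝ) / k₁ := by
    rw [hρ, ← hAr, hNg, hAg]
    push_cast
    field_simp
  have hk : k₁ < k₂ := by
    rw [hρk, one_lt_div hk1'] at hρ1
    exact_mod_cast hρ1
  obtain ⟨u, v, huv⟩ := Nat.isCoprime_iff_coprime.2 hcop
  have huv' : (u : ℝ) * k₁ + v * k₂ = 1 := by exact_mod_cast huv
  set ε : K := Q X ^ u * Q Z ^ v with hε
  have hε0 : ε ≠ 0 := mul_ne_zero (zpow_ne_zero _ (Q_ne h.hX)) (zpow_ne_zero _ (Q_ne h.hZ))
  have vε : ∀ v, Lg v ε = 0 := by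
    intro v'
    rw [hε, Lg_mul v' (zpow_ne_zero _ (Q_ne h.hX)) (zpow_ne_zero _ (Q_ne h.hZ)), Lg_zpow, Lg_zpow,
      u1, u2]
    simp
  have iε : IsIntegral ℤ ε := integral_of_le _ hε0 fun v => (vε v).le
  have iε' : IsIntegral ℤ ε⁻¹ := integral_of_le _ (inv_ne_zero hε0) fun v => by
    rw [Lg_inv, vε v, neg_zero]
  have eε : ∀ σ : K →+* ℂ, σ ε = ((Real.exp (lq X σ / k₁) : ℝ) : ℂ) := by
    intro σ
    rw [hε, map_mul, map_zpow₀, map_zpow₀, Q_emb h.hX, Q_emb h.hZ, r1 σ]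
    have h3 : Real.exp (lq X σ / k₁) = Real.exp (lq X σ) ^ u * Real.exp (ρ * lq X σ) ^ v := by
      rw [← Real.rpow_intCast, ← Real.rpow_intCast, ← Real.exp_mul, ← Real.exp_mul, ← Real.exp_add, hρk]
      congr 1
      field_simp
      linear_combination (-(lq X σ)) * huv'
    rw [h3]
    push_cast
    rfl
  have cε : ∀ σ : K →+* ℂ, σ (ε + ε⁻¹) = ((2 * Real.cosh (W / k₁) : ℝ) : ℂ) := by
    intro σ
    rw [map_add, map_inv₀, eε σ]
    have h3 : Real.exp (lq X σ / k₁) + (Real.exp (lq X σ / k₁))⁻¹ = 2 * Real.cosh (W / k₁) := by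
      rw [← Real.exp_neg]
      rcases zz' σ with h4 | h4
      · rw [h4, Real.cosh_eq]; ring
      · rw [h4, Real.cosh_eq, neg_div, neg_neg]; ring
    rw [← h3]
    push_cast
    rfl
  obtain ⟨q, hq⟩ := rat_of_const (ε + ε⁻¹) _ cε
  have iq : IsIntegral ℤ q := by
    have h3 : IsIntegral ℤ (algebraMap ℚ K q) := by rw [hq]; exact iε.add iε'
    exact (isIntegral_algebraMap_iff (algebraMap ℚ K).injective).1 h3
  obtain ⟨τ, hτ⟩ := int_of_integral q iq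
  have hτW : (τ : ℝ) = 2 * Real.cosh (W / k₁) := by
    have h3 := cε σ₀
    rw [← hq, hτ] at h3
    have h4 : ((τ : ℝ) : ℂ) = ((2 * Real.cosh (W / k₁) : ℝ) : ℂ) := by
      rw [← h3]
      simp
    exact_mod_cast h4
  have hWk : 0 < W / k₁ := by positivity
  have hτ3 : 3 ≤ τ := by
    have h3 : 1 < Real.cosh (W / k₁) := Real.one_lt_cosh.2 hWk.ne'
    have h4 : (2 : ℝ) < τ := by rw [hτW]; linarith
    have h5 : (2 : ℤ) < τ := by exact_mod_cast h4
    omega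
  have hz : Real.exp (W / k₁) * Real.exp (-(W / k₁)) = 1 := by
    rw [← Real.exp_add]; simp
  have hzs : Real.exp (W / k₁) + Real.exp (-(W / k₁)) = (τ : ℝ) := by
    rw [hτW, Real.cosh_eq]; ring
  have hT : ∀ n : ℕ, (Tr τ n : ℝ) = 2 * Real.cosh (n * (W / k₁)) := by
    intro n
    have h3 := Tr_eq (F := ℝ) τ (Real.exp (W / k₁)) (Real.exp (-(W / k₁))) hz hzs n
    rw [h3, ← Real.exp_nat_mul, ← Real.exp_nat_mul, Real.cosh_eq]
    ring_nf
  have hT1 : (Tr τ k₁ : ℝ) = 2 * Real.cosh W := by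
    rw [hT]
    congr 2
    field_simp
  have hT2 : (Tr τ k₂ : ℝ) = 2 * Real.cosh (ρ * W) := by
    rw [hT, hρk]
    congr 2
    field_simp
  obtain ⟨m, hm⟩ := Int.eq_ofNat_of_zero_le s3.le
  have hm0 : 0 < m := by omega
  have hmr : (m : ℝ) = c + d := by
    have : ((m : ℤ) : ℝ) = ((c + d : ℤ) : ℝ) := by rw [hm]
    push_cast at this
    exact this
  have hpow : (Tr τ k₂ + 2) ^ N = (Tr τ k₁ + 2) ^ m := by
    have p1 : (0 : ℝ) < 2 + 2 * Real.cosh W := by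
      have := Real.one_le_cosh W; linarith
    have h3 : (2 + 2 * Real.cosh (ρ * W)) ^ N = (2 + 2 * Real.cosh W) ^ m := by
      rw [hcosh, ← Real.rpow_natCast, ← Real.rpow_mul p1.le, ← Real.rpow_natCast]
      congr 1
      rw [hκ, hmr]
      field_simp
    have h4 : ((Tr τ k₂ : ℝ) + 2) ^ N = ((Tr τ k₁ : ℝ) + 2) ^ m := by
      rw [hT1, hT2, add_comm (2 * Real.cosh (ρ * W)), add_comm (2 * Real.cosh W)]
      exact h3
    exact_mod_cast h4
  obtain ⟨f1, f2, f3⟩ := int_lemma τ hτ3 k₁ k₂ hk1 hk hcop m N hm0 h.hN hpow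
  have g1 : 2 * Real.cosh W = 3 := by
    rw [← hT1, f1, f2]
    norm_num [Tr]
  have g2 : 2 * Real.cosh (ρ * W) = 123 := by
    rw [← hT2, f1, f3]
    norm_num [Tr]
  have c1 := cosh_id (h.hX.pos σ₀) (h.hX.lt σ₀)
  have c2 := cosh_id (h.hZ.pos σ₀) (h.hZ.lt σ₀)
  have d1 : Real.log (R X σ₀ / (1 - R X σ₀)) = -W := hsym
  have d2 : Real.log (R Z σ₀ / (1 - R Z σ₀)) = -(ρ * W) := by
    have := r1 σ₀
    rw [hsym] at this
    rw [show Real.log (R Z σ₀ / (1 - R Z σ₀)) = lq Z σ₀ from rfl, this]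
    ring
  rw [d1, Real.cosh_neg, g1] at c1
  rw [d2, Real.cosh_neg, g2] at c2
  constructor
  · linarith
  · linarith

/-- **The core theorem.** -/
theorem core {X Z : K} {N : ℕ} {a b c d : ℤ} (h : Data X Z N a b c d) (σ₀ : K →+* ℂ)
    (h1 : R Z σ₀ < R X σ₀) (h2 : R X σ₀ < 1 / 2) :
    (∃ p q : ℚ, algebraMap ℚ K p = X ∧ algebraMap ℚ K q = Z) ∨
    (R X σ₀ * (1 - R X σ₀) = 1 / 5 ∧ R Z σ₀ * (1 - R Z σ₀) = 1 / 125) := by
  by_cases o1 : ∃ v : HeightOneSpectrum (𝓞 K), Lg v X < 0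
  · by_cases o2 : ∃ v : HeightOneSpectrum (𝓞 K), Lg v (1 - X) < 0
    · rcases caseII h o1 o2 σ₀ with h3 | h3
      · linarith
      · linarith
    · push Not at o2
      rcases caseIII h o1 o2 σ₀ with h3 | h3 | h3
      · left; exact h3
      · linarith
      · linarith
  · push Not at o1
    by_cases o2 : ∃ v : HeightOneSpectrum (𝓞 K), Lg v (1 - X) < 0
    · rcases caseIII h.symX o2 (by rw [sub_sub_cancel]; exact o1) σ₀ with h3 | h3 | h3
      · left; exact rat_symX h3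
      · rw [R_sub] at h3; linarith
      · rw [R_sub] at h3; linarith
    · push Not at o2
      right
      exact caseI h o1 o2 σ₀ h1 h2

end Pool.Agent.H80.F4
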