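import Mathlib

set_option autoImplicit false

/-! # Multiplicatively dependent values of `ε^k + ε^(-k) + 2` (helper80) -/

namespace Pool.Agent.H80.F4

/-- the traces `ε^n + ε^(-n)`, `ε + 1/ε = τ` -/
def Tr (τ : ℤ) : ℕ → ℤ
  | 0 => 2
  | 1 => τ
  | (n + 2) => τ * Tr τ (n + 1) - Tr τ n

/-- `(ε^(j+1) + ε^(-j)) / (ε + 1)` -/
def U (τ : ℤ) : ℕ → ℤ
  | 0 => 1
  | 1 => τ - 1
  | (n + 2) => τ * U τ (n + 1) - U τ n

theorem Tr_eq {F : Type*} [CommRing F] (τ : ℤ) (z w : F) (hzw : z * w = 1) (h : z + w = τ) :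
    ∀ n : ℕ, (Tr τ n : F) = z ^ n + w ^ n := by
  have key : ∀ n : ℕ, (Tr τ n : F) = z ^ n + w ^ n ∧ (Tr τ (n + 1) : F) = z ^ (n + 1) + w ^ (n + 1) := by
    intro n
    induction n with
    | zero =>
      refine ⟨?_, ?_⟩
      · simp [Tr]; norm_num
      · simp [Tr, h]
    | succ n ih =>
      refine ⟨ih.2, ?_⟩
      have e : Tr τ (n + 1 + 1) = τ * Tr τ (n + 1) - Tr τ n := rfl
      rw [e]
      push_cast
      rw [ih.1, ih.2, ← h]
      linear_combination (z ^ n + w ^ n) * hzw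
  exact fun n => (key n).1

theorem U_eq {F : Type*} [CommRing F] (τ : ℤ) (z w : F) (hzw : z * w = 1) (h : z + w = τ) :
    ∀ n : ℕ, (z + 1) * (U τ n : F) = z ^ (n + 1) + w ^ n := by
  have key : ∀ n : ℕ, (z + 1) * (U τ n : F) = z ^ (n + 1) + w ^ n ∧
      (z + 1) * (U τ (n + 1) : F) = z ^ (n + 2) + w ^ (n + 1) := by
    intro n
    induction n with
    | zero =>
      refine ⟨?_, ?_⟩
      · simp [U]
      · simp only [U]
        push_cast
        rw [← h]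
        linear_combination hzw
    | succ n ih =>
      refine ⟨ih.2, ?_⟩
      have e : U τ (n + 1 + 1) = τ * U τ (n + 1) - U τ n := rfl
      rw [e]
      push_cast
      have e2 : (z + 1) * (τ * (U τ (n + 1) : F) - U τ n) =
          (τ : F) * ((z + 1) * (U τ (n + 1) : F)) - (z + 1) * U τ n := by ring
      rw [e2, ih.1, ih.2, ← h]
      linear_combination (z ^ (n + 1) + w ^ n) * hzw
  exact fun n => (key n).1

/-- a real root -/
theorem real_root (τ : ℤ) (hτ : 3 ≤ τ) : ∃ z w : ℝ, 1 < z ∧ 0 < w ∧ z * w = 1 ∧ z + w = τ := by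
  have hτ' : (3 : ℝ) ≤ τ := by exact_mod_cast hτ
  have hd : 0 < (τ : ℝ) ^ 2 - 4 := by nlinarith
  set s := Real.sqrt ((τ : ℝ) ^ 2 - 4) with hs
  have hs2 : s ^ 2 = (τ : ℝ) ^ 2 - 4 := Real.sq_sqrt hd.le
  have hs0 : 0 < s := Real.sqrt_pos.2 hd
  have hs3 : s < τ := by
    rw [hs]
    rw [Real.sqrt_lt' (by linarith)]
    linarith
  exact ⟨(τ + s) / 2, (τ - s) / 2, by linarith, by linarith, by nlinarith, by ring⟩

theorem Tr_odd (τ : ℤ) (hτ : 3 ≤ τ) (j : ℕ) : Tr τ (2 * j + 1) + 2 = (τ + 2) * U τ j ^ 2 := by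
  obtain ⟨z, w, hz1, hw0, hzw, hz⟩ := real_root τ hτ
  have h1 := Tr_eq τ z w hzw hz (2 * j + 1)
  have h2 := U_eq τ z w hzw hz j
  have h3 : ((Tr τ (2 * j + 1) + 2 : ℤ) : ℝ) = (((τ + 2) * U τ j ^ 2 : ℤ) : ℝ) := by
    push_cast
    have hz2 : (z + 1) ^ 2 ≠ 0 := by positivity
    apply mul_left_cancel₀ hz2
    have hp' : z ^ j * w ^ j = 1 := by rw [← mul_pow, hzw, one_pow]
    have e1 : (z + 1) ^ 2 * (((τ : ℝ) + 2) * (U τ j : ℝ) ^ 2) = (τ + 2) * ((z + 1) * (U τ j : ℝ)) ^ 2 := by ring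
    rw [h1, e1, h2, ← hz]
    have hA : z ^ (2 * j + 1) = z * (z ^ j) ^ 2 := by ring
    have hB : w ^ (2 * j + 1) = w * (w ^ j) ^ 2 := by ring
    have hC : z ^ (j + 1) = z * z ^ j := by ring
    rw [hA, hB, hC]
    generalize z ^ j = a at hp' ⊢
    generalize w ^ j = b at hp' ⊢
    linear_combination (z * b ^ 2 + 2 * b ^ 2 - z * a ^ 2 - 2 * a * b) * hzw +
      (-2 * z ^ 2 - 4 * z - 2) * hp'
  exact_mod_cast h3

theorem Tr_mul (τ : ℤ) (hτ : 3 ≤ τ) (m n : ℕ) : Tr (Tr τ m) n = Tr τ (m * n) := by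
  obtain ⟨z, w, hz1, hw0, hzw, hz⟩ := real_root τ hτ
  have h1 := Tr_eq τ z w hzw hz (m * n)
  have h2 := Tr_eq τ z w hzw hz m
  have h3 := Tr_eq (Tr τ m) (z ^ m) (w ^ m) (by rw [← mul_pow, hzw, one_pow]) h2.symm n
  have h4 : (Tr (Tr τ m) n : ℝ) = (Tr τ (m * n) : ℝ) := by
    rw [h3, h1, pow_mul, pow_mul]
  exact_mod_cast h4

theorem Tr_two_mul (τ : ℤ) (hτ : 3 ≤ τ) (n : ℕ) : Tr τ (2 * n) + 2 = Tr τ n ^ 2 := by
  have h := Tr_mul τ hτ n 2
  rw [mul_comm] at h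
  rw [← h]
  simp only [Tr]
  ring

theorem Tr_ge (τ : ℤ) (hτ : 3 ≤ τ) : ∀ n : ℕ, 2 ≤ Tr τ n ∧ Tr τ n < Tr τ (n + 1) := by
  intro n
  induction n with
  | zero => exact ⟨le_rfl, by simp only [Tr]; omega⟩
  | succ n ih =>
    obtain ⟨h1, h2⟩ := ih
    refine ⟨by omega, ?_⟩
    have e : Tr τ (n + 1 + 1) = τ * Tr τ (n + 1) - Tr τ n := rfl
    rw [e]
    nlinarith

theorem Tr_mono (τ : ℤ) (hτ : 3 ≤ τ) : StrictMono (Tr τ) :=
  strictMono_nat_of_lt_succ fun n => (Tr_ge τ hτ n).2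

theorem U_ge (τ : ℤ) (hτ : 3 ≤ τ) : ∀ n : ℕ, (τ - 1) ^ n ≤ U τ n ∧ (τ - 1) * U τ n ≤ U τ (n + 1) := by
  intro n
  induction n with
  | zero => exact ⟨by simp [U], by simp [U]⟩
  | succ n ih =>
    obtain ⟨h1, h2⟩ := ih
    have h0 : 0 ≤ (τ - 1) ^ n := pow_nonneg (by omega) n
    have hU0 : 0 ≤ U τ n := h0.trans h1
    refine ⟨?_, ?_⟩
    · rw [pow_succ]
      have : (τ - 1) ^ n * (τ - 1) ≤ U τ n * (τ - 1) := mul_le_mul_of_nonneg_right h1 (by omega)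
      linarith
    · have e : U τ (n + 1 + 1) = τ * U τ (n + 1) - U τ n := rfl
      rw [e]
      nlinarith

/-- the congruences -/
theorem U_mod (τ : ℤ) : ∀ j : ℕ,
    ((τ + 2) ∣ (-1) ^ j * U τ j - (2 * j + 1)) ∧
    ((τ + 2) ^ 2 ∣ 6 * ((-1) ^ j * U τ j) - (6 * (2 * j + 1) - (2 * j + 1) * j * (j + 1) * (τ + 2))) ∧
    ((τ + 2) ∣ (-1) ^ (j + 1) * U τ (j + 1) - (2 * (j + 1) + 1)) ∧
    ((τ + 2) ^ 2 ∣ 6 * ((-1) ^ (j + 1) * U τ (j + 1)) -
      (6 * (2 * (j + 1) + 1) - (2 * (j + 1) + 1) * (j + 1) * (j + 2) * (τ + 2))) := by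
  intro j
  induction j with
  | zero =>
    refine ⟨?_, ?_, ?_, ?_⟩
    · simp [U]
    · simp [U]
    · refine ⟨-1, ?_⟩
      simp only [U]; push_cast; ring
    · refine ⟨0, ?_⟩
      simp only [U]; push_cast; ring
  | succ j ih =>
    obtain ⟨⟨a, ha⟩, ⟨b, hb⟩, ⟨c, hc⟩, ⟨d, hd⟩⟩ := ih
    have e : U τ (j + 1 + 1) = τ * U τ (j + 1) - U τ j := rfl
    refine ⟨⟨c, by push_cast; push_cast at hc; linear_combination hc⟩,
      ⟨d, by push_cast; push_cast at hd; linear_combination hd⟩, ?_, ?_⟩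
    · rw [e]
      refine ⟨(2 - (τ + 2)) * c - (2 * (j + 1) + 1) - a, ?_⟩
      push_cast
      have e1 : (-1 : ℤ) ^ (j + 1 + 1) = (-1) ^ j := by rw [pow_succ, pow_succ]; ring
      have e2 : (-1 : ℤ) ^ (j + 1) = -(-1) ^ j := by rw [pow_succ]; ring
      rw [e2] at hc
      rw [e1]
      linear_combination (2 - (τ + 2)) * hc - ha
    · rw [e]
      refine ⟨(2 - (τ + 2)) * d - b + (2 * (j + 1) + 1) * (j + 1) * (j + 2), ?_⟩
      push_cast
      have e1 : (-1 : ℤ) ^ (j + 1 + 1) = (-1) ^ j := by rw [pow_succ, pow_succ]; ring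
      have e2 : (-1 : ℤ) ^ (j + 1) = -(-1) ^ j := by rw [pow_succ]; ring
      rw [e2] at hd
      rw [e1]
      linear_combination (2 - (τ + 2)) * hd - hb

/-- common prime factors -/
theorem common_prime (τ : ℤ) (p : ℕ) (hp : p.Prime) (k₁ k₂ : ℕ) (hk : k₁.Coprime k₂)
    (h1 : (p : ℤ) ∣ Tr τ k₁ + 2) (h2 : (p : ℤ) ∣ Tr τ k₂ + 2) :
    (p : ℤ) ∣ τ + 2 ∧ (p = 2 ∨ (Odd k₁ ∧ Odd k₂)) := by
  haveI := Fact.mk hp
  let F := AlgebraicClosure (ZMod p)
  haveI : CharP F p := inferInstance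
  obtain ⟨z, hz⟩ : ∃ z : F, z ^ 2 - τ * z + 1 = 0 := by
    have hdeg : (Polynomial.X ^ 2 - Polynomial.C (τ : F) * Polynomial.X + 1 : Polynomial F).degree ≠ 0 := by
      have : (Polynomial.X ^ 2 - Polynomial.C (τ : F) * Polynomial.X + 1 : Polynomial F).degree = 2 := by
        compute_degree!
      rw [this]; norm_num
    obtain ⟨z, hz⟩ := IsAlgClosed.exists_root _ hdeg
    refine ⟨z, ?_⟩
    simpa [Polynomial.IsRoot] using hz
  have hz0 : z ≠ 0 := by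
    rintro rfl
    simp at hz
  have hzw : z * (τ - z) = 1 := by linear_combination -hz
  have key : ∀ k : ℕ, (p : ℤ) ∣ Tr τ k + 2 → z ^ k = -1 := by
    intro k hk
    have e1 : ((Tr τ k + 2 : ℤ) : F) = 0 := (CharP.intCast_eq_zero_iff F p _).2 hk
    push_cast at e1
    rw [Tr_eq τ z (τ - z) hzw (by ring) k] at e1
    have e2 : (z ^ k + 1) ^ 2 = 0 := by
      have e3 : z ^ k * (τ - z) ^ k = 1 := by rw [← mul_pow, hzw, one_pow]
      linear_combination z ^ k * e1 - e3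
    have e3 : z ^ k + 1 = 0 := by simpa using e2
    linear_combination e3
  have a1 := key k₁ h1
  have a2 := key k₂ h2
  have b1 : z ^ (2 * k₁) = 1 := by rw [mul_comm, pow_mul, a1]; norm_num
  have b2 : z ^ (2 * k₂) = 1 := by rw [mul_comm, pow_mul, a2]; norm_num
  have b3 : orderOf z ∣ 2 := by
    have c1 := orderOf_dvd_of_pow_eq_one b1
    have c2 := orderOf_dvd_of_pow_eq_one b2
    have c3 := Nat.dvd_gcd c1 c2
    rwa [Nat.gcd_mul_left, Nat.Coprime.gcd_eq_one hk, mul_one] at c3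
  have b4 : z ^ 2 = 1 := orderOf_dvd_iff_pow_eq_one.1 b3
  have hdvd : ∀ m : ℤ, (m : F) = 0 → (p : ℤ) ∣ m := fun m hm => (CharP.intCast_eq_zero_iff F p m).1 hm
  have b6 : (z - 1) * (z + 1) = 0 := by linear_combination b4
  rcases mul_eq_zero.1 b6 with b5 | b5
  · -- z = 1
    have b5 : z = 1 := by linear_combination b5
    rw [b5, one_pow] at a1
    have c1 : ((2 : ℤ) : F) = 0 := by push_cast; linear_combination a1
    have c2 := hdvd 2 c1
    have c3 : p = 2 := (Nat.prime_dvd_prime_iff_eq hp Nat.prime_two).1 (by exact_mod_cast c2)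
    refine ⟨hdvd _ ?_, Or.inl c3⟩
    push_cast
    rw [b5] at hzw
    linear_combination hzw + 2 * a1
  · have b5 : z = -1 := by linear_combination b5
    refine ⟨hdvd _ ?_, ?_⟩
    · push_cast
      rw [b5] at hzw
      linear_combination -hzw
    · by_contra hcon
      push Not at hcon
      obtain ⟨c1, c2⟩ := hcon
      have hev : ∀ k : ℕ, z ^ k = -1 → ¬ Odd k → False := by
        intro k hk hodd
        rw [Nat.not_odd_iff_even] at hodd
        rw [b5, hodd.neg_one_pow] at hk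
        have c3 : ((2 : ℤ) : F) = 0 := by push_cast; linear_combination hk
        exact c1 ((Nat.prime_dvd_prime_iff_eq hp Nat.prime_two).1 (by exact_mod_cast hdvd 2 c3))
      by_cases ho : Odd k₁
      · exact hev k₂ a2 (Nat.not_odd_iff_even.2 (by simpa using c2 ho))
      · exact hev k₁ a1 ho

end Pool.Agent.H80.F4
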