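import Pool.Agent.H80.F4.Int

set_option autoImplicit false

/-! # Multiplicatively dependent values of `ε^k + ε^(-k) + 2`: the theorem (helper80) -/

namespace Pool.Agent.H80.F4

theorem Tr_ge3 (τ : ℤ) (hτ : 3 ≤ τ) (d : ℕ) (hd : 1 ≤ d) : 3 ≤ Tr τ d := by
  have h1 : Tr τ 0 < Tr τ d := Tr_mono τ hτ (by omega)
  have h2 : Tr τ 0 = 2 := rfl
  omega

theorem e_dvd (τ : ℤ) (hτ : 3 ≤ τ) (d m : ℕ) (hd : 1 ≤ d) (hm : Odd m) :
    Tr τ d + 2 ∣ Tr τ (d * m) + 2 := by
  obtain ⟨j, rfl⟩ := hm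
  have h1 := Tr_odd (Tr τ d) (Tr_ge3 τ hτ d hd) j
  rw [Tr_mul τ hτ] at h1
  rw [h1]
  exact dvd_mul_right _ _

/-- powers of two -/
theorem U_odd (τ : ℤ) (hτ : Even τ) : ∀ j : ℕ, Odd (U τ j) ∧ Odd (U τ (j + 1)) := by
  intro j
  induction j with
  | zero => exact ⟨by simp [U], by simp only [U]; exact hτ.sub_odd odd_one⟩
  | succ j ih =>
    refine ⟨ih.2, ?_⟩
    have e : U τ (j + 1 + 1) = τ * U τ (j + 1) - U τ j := rfl
    rw [e]
    exact (hτ.mul_right _).sub_odd ih.1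

/-- the quotient `Tr (2 j + 1) / τ` -/
def W (τ : ℤ) : ℕ → ℤ
  | 0 => 1
  | 1 => τ ^ 2 - 3
  | (n + 2) => (τ ^ 2 - 2) * W τ (n + 1) - W τ n

theorem W_eq (τ : ℤ) : ∀ j : ℕ, Tr τ (2 * j + 1) = τ * W τ j ∧ Tr τ (2 * (j + 1) + 1) = τ * W τ (j + 1) := by
  intro j
  induction j with
  | zero =>
    refine ⟨by simp [Tr, W], ?_⟩
    simp only [Tr, W]
    ring
  | succ j ih =>
    refine ⟨ih.2, ?_⟩
    have e : W τ (j + 1 + 1) = (τ ^ 2 - 2) * W τ (j + 1) - W τ j := rfl
    have e1 : Tr τ (2 * (j + 1 + 1) + 1) = τ * Tr τ (2 * (j + 1) + 1 + 1) - Tr τ (2 * (j + 1) + 1) := rfl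
    have e2 : Tr τ (2 * (j + 1) + 1 + 1) = τ * Tr τ (2 * (j + 1) + 1) - Tr τ (2 * j + 1 + 1) := rfl
    have e3 : Tr τ (2 * (j + 1) + 1) = τ * Tr τ (2 * j + 1 + 1) - Tr τ (2 * j + 1) := rfl
    rw [e, e1, e2]
    obtain ⟨i1, i2⟩ := ih
    linear_combination (τ ^ 2 - 2) * i2 - i1 + e3

theorem W_odd (τ : ℤ) (hτ : Even τ) : ∀ j : ℕ, Odd (W τ j) ∧ Odd (W τ (j + 1)) := by
  have h2 : Even (τ ^ 2) := by rw [sq]; exact hτ.mul_right _
  intro j
  induction j with
  | zero => exact ⟨by simp [W], by simp only [W]; exact h2.sub_odd (by decide)⟩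
  | succ j ih =>
    refine ⟨ih.2, ?_⟩
    have e : W τ (j + 1 + 1) = (τ ^ 2 - 2) * W τ (j + 1) - W τ j := rfl
    rw [e]
    exact ((h2.sub (by decide)).mul_right _).sub_odd ih.1

/-- an odd divisor `> 1` contradicts being a power of two -/
theorem no_odd_dvd (n : ℤ) (hn : ∀ p : ℕ, p.Prime → (p : ℤ) ∣ n → p = 2) (u : ℤ) (hu : Odd u)
    (hu1 : 1 < u) (hd : u ∣ n) : False := by
  obtain ⟨v, rfl⟩ := Int.eq_ofNat_of_zero_le (by omega : 0 ≤ u)
  have hv : v ≠ 1 := by
    rintro rfl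
    norm_num at hu1
  have hp := Nat.minFac_prime hv
  have h1 := hn _ hp (dvd_trans (by exact_mod_cast Nat.minFac_dvd v) hd)
  have h2 : 2 ∣ v := by
    rw [← h1]
    exact Nat.minFac_dvd v
  have h3 : Odd v := by exact_mod_cast hu
  rw [← Nat.not_even_iff_odd] at h3
  exact h3 (even_iff_two_dvd.2 h2)

theorem Tr_even (τ : ℤ) (hτ : Even τ) : ∀ n : ℕ, Even (Tr τ n) ∧ Even (Tr τ (n + 1)) := by
  intro n
  induction n with
  | zero => exact ⟨by simp [Tr], by simpa [Tr] using hτ⟩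
  | succ n ih =>
    refine ⟨ih.2, ?_⟩
    have e : Tr τ (n + 1 + 1) = τ * Tr τ (n + 1) - Tr τ n := rfl
    rw [e]
    exact (hτ.mul_right _).sub ih.1

theorem pow_two_case (τ : ℤ) (hτ : 3 ≤ τ) (hev : Even τ) (k : ℕ) (hk : 1 ≤ k)
    (h : ∀ p : ℕ, p.Prime → (p : ℤ) ∣ Tr τ k + 2 → p = 2) : k = 1 ∨ k = 2 := by
  have hτ4 : 4 ≤ τ := by
    obtain ⟨r, hr⟩ := hev
    omega
  rcases Nat.even_or_odd' k with ⟨l, rfl | rfl⟩
  · -- even
    rw [Tr_two_mul τ hτ] at h
    rcases Nat.even_or_odd' l with ⟨i, rfl | rfl⟩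
    · exfalso
      have h1 := Tr_two_mul τ hτ i
      have h2 := Tr_ge3 τ hτ (2 * i) (by omega)
      obtain ⟨r, hr⟩ := (Tr_even τ hev i).1
      -- Tr (2 i) = 4 r^2 - 2 = 2 (2 r^2 - 1)
      have h3 : Tr τ (2 * i) = 2 * (2 * r ^ 2 - 1) := by
        have : Tr τ (2 * i) = Tr τ i ^ 2 - 2 := by omega
        rw [this, hr]; ring
      refine no_odd_dvd _ h (2 * r ^ 2 - 1) ⟨r ^ 2 - 1, by ring⟩ (by nlinarith) ?_
      rw [h3]
      exact ⟨4 * (2 * r ^ 2 - 1), by ring⟩
    · rcases Nat.eq_zero_or_pos i with rfl | hi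
      · right; norm_num
      · exfalso
        obtain ⟨i', rfl⟩ : ∃ i', i = i' + 1 := ⟨i - 1, by omega⟩
        have h1 := (W_eq τ (i' + 1)).1
        have h2 : Tr τ 1 < Tr τ (2 * (i' + 1) + 1) := Tr_mono τ hτ (by omega)
        have h3 : Tr τ 1 = τ := rfl
        refine no_odd_dvd _ h (W τ (i' + 1)) (W_odd τ hev i').2 ?_ ?_
        · rw [h3, h1] at h2
          by_contra hcon
          push Not at hcon
          nlinarith
        · rw [h1]
          exact ⟨τ ^ 2 * W τ (i' + 1), by ring⟩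
  · rcases Nat.eq_zero_or_pos l with rfl | hl
    · left; norm_num
    · exfalso
      obtain ⟨i', rfl⟩ : ∃ i', l = i' + 1 := ⟨l - 1, by omega⟩
      have h1 := Tr_odd τ hτ (i' + 1)
      refine no_odd_dvd _ h (U τ (i' + 1)) (U_odd τ hev i').2 ?_ ?_
      · have h2 := (U_ge τ hτ i').2
        have h3 := (U_ge τ hτ i').1
        have h4 : 1 ≤ (τ - 1) ^ i' := one_le_pow₀ (by omega)
        nlinarith
      · rw [h1]
        exact ⟨(τ + 2) * U τ (i' + 1), by ring⟩

/-- an odd prime factor of an index -/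
theorem odd_prime_index (τ : ℤ) (hτ : 3 ≤ τ) (j : ℕ) (hq : (2 * j + 1).Prime)
    (h : ∀ p : ℕ, p.Prime → (p : ℤ) ∣ U τ j → (p : ℤ) ∣ τ + 2) :
    (j = 1 ∧ ∃ i : ℕ, 1 ≤ i ∧ τ - 1 = 3 ^ i) ∨ (j = 2 ∧ τ = 3) := by
  have hj : 1 ≤ j := by
    rcases Nat.eq_zero_or_pos j with rfl | h0
    · norm_num at hq
    · exact h0
  have hUge : τ - 1 ≤ U τ j := by
    have h1 := (U_ge τ hτ j).1
    have h2 : (τ - 1) ^ 1 ≤ (τ - 1) ^ j := pow_le_pow_right₀ (by omega) hj
    rw [pow_one] at h2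
    omega
  obtain ⟨m1, m2, -, -⟩ := U_mod τ j
  set q : ℕ := 2 * j + 1 with hqd
  -- all primes of `U` are `q`
  have hpq : ∀ p : ℕ, p.Prime → (p : ℤ) ∣ U τ j → p = q := by
    intro p hp hd
    have h1 := h p hp hd
    have h2 := h1.trans m1
    have h3 : (p : ℤ) ∣ (-1) ^ j * U τ j := hd.mul_left _
    have h4 := dvd_sub h3 h2
    have h5 : (-1) ^ j * U τ j - ((-1) ^ j * U τ j - (2 * j + 1)) = (q : ℤ) := by
      rw [hqd]; push_cast; ring
    rw [h5] at h4
    exact (Nat.prime_dvd_prime_iff_eq hp hq).1 (by exact_mod_cast h4)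
  obtain ⟨u, hu⟩ := Int.eq_ofNat_of_zero_le (by omega : 0 ≤ U τ j)
  have hu2 : 2 ≤ u := by
    have : (2 : ℤ) ≤ u := by rw [hu] at hUge; omega
    exact_mod_cast this
  have hupow : ∃ i : ℕ, u = q ^ i := by
    refine ⟨u.primeFactorsList.length, ?_⟩
    have h1 := Nat.prod_primeFactorsList (by omega : u ≠ 0)
    have h2 : u.primeFactorsList = List.replicate u.primeFactorsList.length q := by
      rw [List.eq_replicate_iff]
      refine ⟨rfl, fun p hp => ?_⟩
      have hp' := Nat.prime_of_mem_primeFactorsList hp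
      apply hpq p hp'
      rw [hu]
      exact_mod_cast Nat.dvd_of_mem_primeFactorsList hp
    conv_lhs => rw [← h1, h2]
    rw [List.prod_replicate]
  obtain ⟨i, hi⟩ := hupow
  have hi1 : 1 ≤ i := by
    rcases Nat.eq_zero_or_pos i with rfl | h0
    · rw [pow_zero] at hi; omega
    · exact h0
  have hqU : (q : ℤ) ∣ U τ j := by
    rw [hu, hi]
    exact_mod_cast dvd_pow_self q (by omega)
  have hqA : (q : ℤ) ∣ τ + 2 := h q hq hqU
  rcases Nat.lt_or_ge j 2 with hj2 | hj2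
  · have hj1 : j = 1 := by omega
    left
    refine ⟨hj1, i, hi1, ?_⟩
    subst hj1
    have h1 : U τ 1 = τ - 1 := rfl
    rw [← h1, hu, hi]
    have hq3 : q = 3 := by rw [hqd]
    rw [hq3]
    norm_num
  · right
    -- exactly divisible by q
    have hi2 : i = 1 := by
      by_contra hne
      have hi3 : 2 ≤ i := by omega
      have h1 : ((q : ℤ)) ^ 2 ∣ U τ j := by
        rw [hu, hi]
        push_cast
        exact pow_dvd_pow _ hi3
      have h2 : (q : ℤ) ^ 2 ∣ (τ + 2) ^ 2 := pow_dvd_pow_of_dvd hqA 2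
      have h3 := h2.trans m2
      have h4 : (q : ℤ) ^ 2 ∣ 6 * ((-1) ^ j * U τ j) := (h1.mul_left _).mul_left _
      have h5 := dvd_sub h4 h3
      have h6 : (q : ℤ) ^ 2 ∣ (q : ℤ) * (τ + 2) * (j * (j + 1)) := by
        rw [sq]
        exact (mul_dvd_mul_left _ hqA).mul_right _
      have h7 := dvd_add h5 h6
      have h8 : 6 * ((-1) ^ j * U τ j) - (6 * ((-1) ^ j * U τ j) -
          (6 * (2 * j + 1) - (2 * j + 1) * j * (j + 1) * (τ + 2))) +
          (q : ℤ) * (τ + 2) * (j * (j + 1)) = (q : ℤ) * 6 := by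
        rw [hqd]; push_cast; ring
      rw [h8, sq] at h7
      have h9 : (q : ℤ) ∣ 6 := by
        have hq0 : (q : ℤ) ≠ 0 := by exact_mod_cast hq.ne_zero
        exact (mul_dvd_mul_iff_left hq0).1 h7
      have h10 : q ∣ 6 := by exact_mod_cast h9
      have h11 := Nat.le_of_dvd (by norm_num) h10
      have h12 : j = 2 := by omega
      rw [hqd, h12] at h10
      norm_num at h10
    rw [hi2, pow_one] at hi
    have hAq : (q : ℤ) ≤ τ + 2 := Int.le_of_dvd (by omega) hqA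
    have h1 := (U_ge τ hτ j).1
    rw [hu, hi] at h1
    have h2 : (τ - 1) ^ 2 ≤ (τ - 1) ^ j := pow_le_pow_right₀ (by omega) hj2
    have h3 : (q : ℤ) = 2 * j + 1 := by rw [hqd]; push_cast; ring
    have h4 : τ ≤ 4 := by
      by_contra hcon
      push Not at hcon
      nlinarith
    have h5 : τ = 3 ∨ τ = 4 := by omega
    rcases h5 with rfl | rfl
    · refine ⟨?_, rfl⟩
      have : (q : ℤ) ≤ 5 := by omega
      omega
    · exfalso
      have h6 : (q : ℤ) ≤ 6 := by omega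
      have h7 : j = 2 := by omega
      rw [hqd, h7] at hqA
      norm_num at hqA

/-- **The values `ε^k + ε^(-k) + 2` at coprime indices are multiplicatively independent**, with one
exception. -/
theorem int_lemma (τ : ℤ) (hτ : 3 ≤ τ) (k₁ k₂ : ℕ) (hk1 : 1 ≤ k₁) (hk : k₁ < k₂)
    (hc : k₁.Coprime k₂) (a b : ℕ) (ha : 1 ≤ a) (hb : 1 ≤ b)
    (h : (Tr τ k₂ + 2) ^ b = (Tr τ k₁ + 2) ^ a) : τ = 3 ∧ k₁ = 1 ∧ k₂ = 5 := by
  -- the same primes
  have hs1 : ∀ p : ℕ, p.Prime → (p : ℤ) ∣ Tr τ k₁ + 2 → (p : ℤ) ∣ Tr τ k₂ + 2 := by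
    intro p hp hd
    have h1 : (p : ℤ) ∣ (Tr τ k₂ + 2) ^ b := by rw [h]; exact dvd_pow hd (by omega)
    exact (Nat.prime_iff_prime_int.1 hp).dvd_of_dvd_pow h1
  have hs2 : ∀ p : ℕ, p.Prime → (p : ℤ) ∣ Tr τ k₂ + 2 → (p : ℤ) ∣ Tr τ k₁ + 2 := by
    intro p hp hd
    have h1 : (p : ℤ) ∣ (Tr τ k₁ + 2) ^ a := by rw [← h]; exact dvd_pow hd (by omega)
    exact (Nat.prime_iff_prime_int.1 hp).dvd_of_dvd_pow h1
  have hA1 : ∀ p : ℕ, p.Prime → (p : ℤ) ∣ Tr τ k₁ + 2 → (p : ℤ) ∣ τ + 2 := fun p hp hd =>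
    (common_prime τ p hp k₁ k₂ hc hd (hs1 p hp hd)).1
  have hA2 : ∀ p : ℕ, p.Prime → (p : ℤ) ∣ Tr τ k₂ + 2 → (p : ℤ) ∣ τ + 2 := fun p hp hd =>
    (common_prime τ p hp k₁ k₂ hc (hs2 p hp hd) hd).1
  by_cases hodd : Odd k₁ ∧ Odd k₂
  · obtain ⟨ho1, ho2⟩ := hodd
    -- odd prime factors of the indices
    have hq : ∀ k : ℕ, 1 ≤ k → Odd k → (∀ p : ℕ, p.Prime → (p : ℤ) ∣ Tr τ k + 2 → (p : ℤ) ∣ τ + 2) →
        ∀ q : ℕ, q.Prime → q ∣ k →
          (q = 3 ∧ ∃ i : ℕ, 1 ≤ i ∧ τ - 1 = 3 ^ i) ∨ (q = 5 ∧ τ = 3) := by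
      intro k hk hko hkA q hqp hqk
      have hqo : Odd q := Odd.of_dvd_nat hko hqk
      obtain ⟨j, hj⟩ := hqo
      obtain ⟨m, hm⟩ := hqk
      have hmo : Odd m := by
        rw [hm] at hko
        exact (Nat.odd_mul.1 hko).2
      have h1 := e_dvd τ hτ q m hqp.one_lt.le hmo
      rw [← hm] at h1
      rw [hj] at h1 hqp
      rw [Tr_odd τ hτ j] at h1
      have h2 := odd_prime_index τ hτ j hqp (fun p hp hd => hkA p hp
        (dvd_trans ((hd.trans (dvd_pow_self _ two_ne_zero)).mul_left _) h1))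
      rcases h2 with ⟨h3, h4⟩ | ⟨h3, h4⟩
      · left; exact ⟨by omega, h4⟩
      · right; exact ⟨by omega, h4⟩
    have hq1 := hq k₁ hk1 ho1 hA1
    have hq2 := hq k₂ (by omega) ho2 hA2
    -- a prime factor of k₂
    have hk21 : k₂ ≠ 1 := by omega
    have hp2 := Nat.minFac_prime hk21
    have hd2 := Nat.minFac_dvd k₂
    rcases hq2 _ hp2 hd2 with ⟨h3, i, hi1, hi⟩ | ⟨h5, hτ3⟩
    · exfalso
      have hτne : τ ≠ 3 := by
        rintro rfl
        have h6 : (3 : ℤ) ∣ 3 ^ i := dvd_pow_self 3 (by omega)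
        rw [← hi] at h6
        norm_num at h6
      have hall : ∀ k : ℕ, (∀ q : ℕ, q.Prime → q ∣ k → (q = 3 ∧ ∃ i : ℕ, 1 ≤ i ∧ τ - 1 = 3 ^ i) ∨
          (q = 5 ∧ τ = 3)) → ∀ q : ℕ, q.Prime → q ∣ k → q = 3 := by
        intro k hk q hq hqk
        rcases hk q hq hqk with h6 | h6
        · exact h6.1
        · exact absurd h6.2 hτne
      have hall1 := hall k₁ hq1
      have hall2 := hall k₂ hq2
      have h3k2 : 3 ∣ k₂ := by rw [← h3]; exact hd2
      have hk11 : k₁ = 1 := by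
        by_contra hne
        have h6 := Nat.minFac_prime hne
        have h7 := hall1 _ h6 (Nat.minFac_dvd k₁)
        have h8 : 3 ∣ k₁ := by rw [← h7]; exact Nat.minFac_dvd k₁
        have h9 := Nat.dvd_gcd h8 h3k2
        rw [Nat.Coprime.gcd_eq_one hc] at h9
        norm_num at h9
      -- e(3)
      have he3 : Tr τ 3 + 2 = (τ + 2) * (τ - 1) ^ 2 := by
        have := Tr_odd τ hτ 1
        simpa [U] using this
      have h3A : (3 : ℤ) ∣ τ + 2 := by
        have h6 : (3 : ℤ) ∣ 3 ^ i := dvd_pow_self 3 (by omega)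
        rw [← hi] at h6
        have h7 : τ + 2 = (τ - 1) + 3 := by ring
        rw [h7]
        exact dvd_add h6 (dvd_refl 3)
      obtain ⟨m, hm⟩ := h3k2
      have hmo : Odd m := by
        rw [hm] at ho2
        exact (Nat.odd_mul.1 ho2).2
      by_cases hm1 : m = 1
      · -- k₂ = 3
        rw [hm1, mul_one] at hm
        rw [hm, hk11, he3] at h
        have h6 : Tr τ 1 = τ := rfl
        rw [h6, mul_pow, hi] at h
        have hA0 : (0 : ℤ) < τ + 2 := by omega
        -- τ + 2 is even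
        have hev : (2 : ℤ) ∣ τ + 2 := by
          have h7 : Odd ((3 : ℤ) ^ i) := (by decide : Odd (3 : ℤ)).pow
          rw [← hi] at h7
          obtain ⟨r, hr⟩ := h7
          exact ⟨r + 2, by omega⟩
        have hab : b < a := by
          by_contra hcon
          push Not at hcon
          have h7 : (τ + 2) ^ a ≤ (τ + 2) ^ b := pow_le_pow_right₀ (by omega) hcon
          have h8 : (1 : ℤ) < ((3 ^ i) ^ 2) ^ b := by
            rw [← pow_mul, ← pow_mul]
            exact one_lt_pow₀ (by norm_num) (by positivity)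
          have h9 : 0 < (τ + 2) ^ b := by positivity
          nlinarith
        obtain ⟨c, rfl⟩ := Nat.exists_eq_add_of_lt hab
        rw [show b + c + 1 = b + (c + 1) by ring, pow_add (τ + 2) b] at h
        have h9 : (τ + 2) ^ b ≠ 0 := by positivity
        have h10 := mul_left_cancel₀ h9 h
        have h11 : (2 : ℤ) ∣ ((3 ^ i) ^ 2) ^ b := by
          rw [h10]
          exact dvd_pow hev (by omega)
        have h12 : (2 : ℤ) ∣ 3 := by
          have h13 := Int.prime_two.dvd_of_dvd_pow h11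
          exact Int.prime_two.dvd_of_dvd_pow (Int.prime_two.dvd_of_dvd_pow h13)
        norm_num at h12
      · -- 9 divides k₂
        have h6 := Nat.minFac_prime hm1
        have h7 := hall2 _ h6 ((Nat.minFac_dvd m).trans ⟨3, by rw [hm]; ring⟩)
        obtain ⟨m', hm'⟩ : 3 ∣ m := by rw [← h7]; exact Nat.minFac_dvd m
        have hmo' : Odd m' := by
          rw [hm'] at hmo
          exact (Nat.odd_mul.1 hmo).2
        have h8 : Tr τ 9 + 2 ∣ Tr τ k₂ + 2 := by
          have := e_dvd τ hτ 9 m' (by norm_num) hmo'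
          rwa [show 9 * m' = k₂ by rw [hm, hm']; ring] at this
        have h9 : Tr τ 9 + 2 = (Tr τ 3 + 2) * (Tr τ 3 - 1) ^ 2 := by
          have h10 := Tr_odd (Tr τ 3) (Tr_ge3 τ hτ 3 (by norm_num)) 1
          rw [Tr_mul τ hτ] at h10
          simpa [U] using h10
        -- the primes of Tr 3 - 1
        set y : ℤ := Tr τ 3 - 1 with hy
        have hy3 : y = (τ + 2) * (τ - 1) ^ 2 - 3 := by rw [← he3, hy]; ring
        have hyp : ∀ p : ℕ, p.Prime → (p : ℤ) ∣ y → p = 3 := by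
          intro p hp hd
          have h10 : (p : ℤ) ∣ τ + 2 := by
            apply hA2 p hp
            refine dvd_trans ?_ h8
            rw [h9]
            exact (hd.trans (dvd_pow_self _ two_ne_zero)).mul_left _
          have h11 : (p : ℤ) ∣ 3 := by
            have h12 := dvd_sub (h10.mul_right ((τ - 1) ^ 2)) hd
            have h13 : (τ + 2) * (τ - 1) ^ 2 - y = 3 := by rw [hy3]; ring
            rwa [h13] at h12
          exact (Nat.prime_dvd_prime_iff_eq hp Nat.prime_three).1 (by exact_mod_cast h11)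
        have hybig : 3 < y := by
          rw [hy3]
          nlinarith
        -- 9 does not divide y
        have h9y : ¬ (9 : ℤ) ∣ y := by
          intro hd
          obtain ⟨r, hr⟩ := h3A
          obtain ⟨s, hs⟩ : (3 : ℤ) ∣ τ - 1 := ⟨r - 1, by omega⟩
          have h10 : (9 : ℤ) ∣ (τ + 2) * (τ - 1) ^ 2 := ⟨(τ + 2) * s ^ 2, by rw [hs]; ring⟩
          have h11 := dvd_sub h10 hd
          have h12 : (τ + 2) * (τ - 1) ^ 2 - y = 3 := by rw [hy3]; ring
          rw [h12] at h11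
          norm_num at h11
        obtain ⟨v, hv⟩ := Int.eq_ofNat_of_zero_le (by omega : 0 ≤ y)
        have hv4 : 3 < v := by
          have : (3 : ℤ) < v := by rw [hv] at hybig; exact hybig
          exact_mod_cast this
        have hvr : v.primeFactorsList = List.replicate v.primeFactorsList.length 3 := by
          rw [List.eq_replicate_iff]
          refine ⟨rfl, fun p hp => ?_⟩
          have hp' := Nat.prime_of_mem_primeFactorsList hp
          apply hyp p hp'
          rw [hv]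
          exact_mod_cast Nat.dvd_of_mem_primeFactorsList hp
        have hvpow : v = 3 ^ v.primeFactorsList.length := by
          conv_lhs => rw [← Nat.prod_primeFactorsList (by omega : v ≠ 0), hvr]
          rw [List.prod_replicate]
        have hlen : 2 ≤ v.primeFactorsList.length := by
          by_contra hcon
          have h10 : v.primeFactorsList.length ≤ 1 := by omega
          have h11 : 3 ^ v.primeFactorsList.length ≤ 3 ^ 1 := Nat.pow_le_pow_right (by norm_num) h10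
          omega
        apply h9y
        rw [hv, hvpow]
        push_cast
        exact pow_dvd_pow 3 hlen
    · -- τ = 3
      subst hτ3
      have hall : ∀ k : ℕ, (∀ q : ℕ, q.Prime → q ∣ k → (q = 3 ∧ ∃ i : ℕ, 1 ≤ i ∧ (3 : ℤ) - 1 = 3 ^ i) ∨
          (q = 5 ∧ (3 : ℤ) = 3)) → ∀ q : ℕ, q.Prime → q ∣ k → q = 5 := by
        intro k hk q hq hqk
        rcases hk q hq hqk with ⟨-, i, hi1, hi⟩ | h6
        · exfalso
          have h6 : (3 : ℤ) ∣ 3 ^ i := dvd_pow_self 3 (by omega)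
          rw [← hi] at h6
          norm_num at h6
        · exact h6.1
      have hall1 := hall k₁ hq1
      have hall2 := hall k₂ hq2
      have h5k2 : 5 ∣ k₂ := by rw [← h5]; exact hd2
      have hk11 : k₁ = 1 := by
        by_contra hne
        have h6 := Nat.minFac_prime hne
        have h7 := hall1 _ h6 (Nat.minFac_dvd k₁)
        have h8 : 5 ∣ k₁ := by rw [← h7]; exact Nat.minFac_dvd k₁
        have h9 := Nat.dvd_gcd h8 h5k2
        rw [Nat.Coprime.gcd_eq_one hc] at h9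
        norm_num at h9
      refine ⟨rfl, hk11, ?_⟩
      obtain ⟨m, hm⟩ := h5k2
      have hmo : Odd m := by
        rw [hm] at ho2
        exact (Nat.odd_mul.1 ho2).2
      by_cases hm1 : m = 1
      · rw [hm, hm1]
      · exfalso
        have h6 := Nat.minFac_prime hm1
        have h7 := hall2 _ h6 ((Nat.minFac_dvd m).trans ⟨5, by rw [hm]; ring⟩)
        obtain ⟨m', hm'⟩ : 5 ∣ m := by rw [← h7]; exact Nat.minFac_dvd m
        have hmo' : Odd m' := by
          rw [hm'] at hmo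
          exact (Nat.odd_mul.1 hmo).2
        have h8 : Tr 3 25 + 2 ∣ Tr 3 k₂ + 2 := by
          have := e_dvd 3 hτ 25 m' (by norm_num) hmo'
          rwa [show 25 * m' = k₂ by rw [hm, hm']; ring] at this
        have h9 : (3001 : ℤ) ∣ Tr 3 25 + 2 := by
          have : Tr 3 25 + 2 = 3001 * 9378125 := by decide
          rw [this]
          exact dvd_mul_right _ _
        have h10 := hA2 3001 (by norm_num) (h9.trans h8)
        norm_num at h10
  · exfalso
    -- only the prime 2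
    have h2 : ∀ p : ℕ, p.Prime → (p : ℤ) ∣ Tr τ k₁ + 2 → p = 2 := fun p hp hd =>
      ((common_prime τ p hp k₁ k₂ hc hd (hs1 p hp hd)).2).resolve_right hodd
    have h2' : ∀ p : ℕ, p.Prime → (p : ℤ) ∣ Tr τ k₂ + 2 → p = 2 := fun p hp hd =>
      h2 p hp (hs2 p hp hd)
    have hpos1 := Tr_ge3 τ hτ k₁ hk1
    have hpos2 := Tr_ge3 τ hτ k₂ (by omega)
    have hev : Even τ := by
      obtain ⟨v, hv⟩ := Int.eq_ofNat_of_zero_le (by omega : 0 ≤ Tr τ k₁ + 2)
      have hv1 : v ≠ 1 := by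
        rintro rfl
        omega
      have h4 := Nat.minFac_prime hv1
      have h5 : ((v.minFac : ℕ) : ℤ) ∣ Tr τ k₁ + 2 := by
        rw [hv]
        exact_mod_cast Nat.minFac_dvd v
      have h6 := h2 _ h4 h5
      have h7 := hA1 _ h4 h5
      rw [h6] at h7
      obtain ⟨r, hr⟩ := h7
      exact ⟨r - 1, by push_cast at hr; omega⟩
    have c1 := pow_two_case τ hτ hev k₁ hk1 h2
    have c2 := pow_two_case τ hτ hev k₂ (by omega) h2'
    have d1 : k₁ = 1 := by omega
    have d2 : k₂ = 2 := by omega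
    rw [d1] at h2
    rw [d2, Tr_two_mul τ hτ 1] at h2'
    have e1 : Tr τ 1 = τ := rfl
    rw [e1] at h2 h2'
    obtain ⟨r, hr⟩ := hev
    have hr2 : 2 ≤ r := by omega
    -- τ = 2 r, τ + 2 = 2 (r + 1)
    rcases Int.even_or_odd r with hre | hro
    · exact no_odd_dvd _ h2 (r + 1) (hre.add_odd odd_one) (by omega) ⟨2, by rw [hr]; ring⟩
    · exact no_odd_dvd _ h2' r hro (by omega) ⟨4 * r, by rw [hr]; ring⟩

end Pool.Agent.H80.F4
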