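import Pool.Agent.H80.F4.Alg
import Pool.Graph.R_pool_sql_team_seeded_63374d34.N770.PLogs

set_option autoImplicit false

/-! # Totally positive additive pairs and `p`-adic logarithms (helper80) -/

namespace Pool.Agent.H80.F4

open Polynomial Pool.Agent.N770
open Pool.Agent.Y787 (QC mem_QC)
open Pool.Agent.W254.PA (LtE logs)
open Pool.Agent.W245.PB (IsIwasawaLog brumer exists_near)

variable {p : ℕ} [hp : Fact p.Prime] {L : PadicAlgCl p → PadicAlgCl p}

theorem unit_log_zero (hL : IsIwasawaLog p L) {x : PadicAlgCl p} (hx : ‖x‖ = 1) (h : L x = 0) :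
    ∃ m : ℕ, 0 < m ∧ x ^ m = 1 := by
  have hx0 : x ≠ 0 := by
    rintro rfl
    rw [norm_zero] at hx
    exact zero_ne_one hx
  have hpne : (p : PadicAlgCl p) ≠ 0 := Nat.cast_ne_zero.2 hp.out.ne_zero
  obtain ⟨m, r, hm, hnear⟩ := exists_near hx0
  have h1 : L (x ^ m * (p : PadicAlgCl p) ^ r) = 0 := by
    rw [hL.mul _ _ (pow_ne_zero _ hx0) (zpow_ne_zero _ hpne), hL.pow hx0, hL.zpow hpne, hL.prime, h]
    simp
  have h2 := hL.eq_one hnear h1
  have h3 := congrArg norm h2
  rw [norm_mul, norm_pow, hx, one_pow, one_mul, norm_zpow, norm_one,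
    Pool.Agent.W245.PB.norm_p p] at h3
  have hp1 : (1 : ℝ) < p := by exact_mod_cast hp.out.one_lt
  have h4 : r = 0 := by
    rw [inv_zpow, inv_eq_one] at h3
    by_contra hr
    exact (zpow_right_injective₀ (by linarith) hp1.ne').ne hr (by simpa using h3)
  rw [h4, zpow_zero, mul_one] at h2
  exact ⟨m, hm, h2⟩

theorem norm_ne {x : PadicAlgCl p} (hx : ‖x‖ = 1) : x ≠ 0 := by
  rintro rfl
  rw [norm_zero] at hx
  exact zero_ne_one hx

theorem dep3P (hL : IsIwasawaLog p L) {t : PadicAlgCl p} (ht : Transcendental ℚ t)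
    {x y z : PadicAlgCl p} (hx : ‖x‖ = 1) (hy : ‖y‖ = 1) (hz : ‖z‖ = 1)
    (ax : IsAlgebraic ℚ x) (ay : IsAlgebraic ℚ y) (az : IsAlgebraic ℚ z)
    (h1 : t * L x ∈ LtE (logs L)) (h2 : t * L y ∈ LtE (logs L)) (h3 : t * L z ∈ LtE (logs L)) :
    ∃ a b c : ℤ, (a ≠ 0 ∨ b ≠ 0 ∨ c ≠ 0) ∧ x ^ a * y ^ b * z ^ c = 1 := by
  have x0 := norm_ne hx
  have y0 := norm_ne hy
  have z0 := norm_ne hz
  have hdep : ¬ LinearIndependent ℚ ![L x, L y, L z] := by
    intro hli
    refine sixExp_padic hL t ?_ ![L x, L y, L z] ?_ ?_ ?_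
    · intro c hc
      apply ht
      rw [hc]
      exact mem_QC.1 c.2
    · rw [Fintype.linearIndependent_iff]
      intro g hg
      have hli' : LinearIndependent ℚ fun i : Fin 3 => L (![x, y, z] i) := by
        convert hli using 1
        funext i
        fin_cases i <;> rfl
      have h4 := brumer hL ![x, y, z] (by
        intro i
        fin_cases i
        · exact x0
        · exact y0
        · exact z0) (by
        intro i
        fin_cases i
        · exact ax
        · exact ay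
        · exact az) hli' 0 isAlgebraic_zero (fun i => (g i : PadicAlgCl p))
        (fun i => mem_QC.1 (g i).2) (by
          rw [zero_add, ← hg]
          apply Finset.sum_congr rfl
          intro i _
          rw [Algebra.smul_def]
          fin_cases i <;> rfl)
      intro i
      have := h4.2 i
      exact_mod_cast this
    · intro j
      apply Submodule.subset_span
      right
      fin_cases j
      · exact ⟨x, x0, ax, rfl⟩
      · exact ⟨y, y0, ay, rfl⟩
      · exact ⟨z, z0, az, rfl⟩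
    · intro j
      fin_cases j
      · exact h1
      · exact h2
      · exact h3
  rw [← LinearIndependent.iff_fractionRing ℤ ℚ, Fintype.linearIndependent_iff] at hdep
  push Not at hdep
  obtain ⟨g, hg, i, hi⟩ := hdep
  rw [Fin.sum_univ_three] at hg
  simp only [Matrix.cons_val_zero, Matrix.cons_val_one, Matrix.cons_val_two, Matrix.tail_cons,
    Matrix.head_cons, zsmul_eq_mul] at hg
  have h4 : L (x ^ g 0 * y ^ g 1 * z ^ g 2) = 0 := by
    rw [hL.mul _ _ (mul_ne_zero (zpow_ne_zero _ x0) (zpow_ne_zero _ y0)) (zpow_ne_zero _ z0),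
      hL.mul _ _ (zpow_ne_zero _ x0) (zpow_ne_zero _ y0), hL.zpow x0, hL.zpow y0, hL.zpow z0]
    exact hg
  have h5 : ‖x ^ g 0 * y ^ g 1 * z ^ g 2‖ = 1 := by
    rw [norm_mul, norm_mul, norm_zpow, norm_zpow, norm_zpow, hx, hy, hz]
    simp
  obtain ⟨m, hm, h6⟩ := unit_log_zero hL h5 h4
  have hm' : (m : ℤ) ≠ 0 := by exact_mod_cast hm.ne'
  refine ⟨g 0 * m, g 1 * m, g 2 * m, ?_, ?_⟩
  · fin_cases i
    · exact Or.inl (mul_ne_zero hi hm')
    · exact Or.inr (Or.inl (mul_ne_zero hi hm'))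
    · exact Or.inr (Or.inr (mul_ne_zero hi hm'))
  · rw [zpow_mul, zpow_mul, zpow_mul, zpow_natCast, zpow_natCast, zpow_natCast, ← mul_pow,
      ← mul_pow, h6]

/-- the set of the numbers -/
def PairsP (V : Submodule ℚ (PadicAlgCl p)) (L : PadicAlgCl p → PadicAlgCl p) (t : PadicAlgCl p) :
    Set (PadicAlgCl p) :=
  {x | TPa x ∧ x ≠ 1 / 2 ∧ ‖x‖ = 1 ∧ ‖1 - x‖ = 1 ∧ t * L x ∈ V ∧ t * L (1 - x) ∈ V}

theorem PairsP.sub {V : Submodule ℚ (PadicAlgCl p)} {t x : PadicAlgCl p} (h : x ∈ PairsP V L t) :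
    1 - x ∈ PairsP V L t := by
  obtain ⟨h1, h2, h3, h4, h5, h6⟩ := h
  refine ⟨h1.sub, ?_, h4, by rwa [sub_sub_cancel], h6, by rwa [sub_sub_cancel]⟩
  intro h
  apply h2
  linear_combination -h

theorem two_ne {x : PadicAlgCl p} (h : x ≠ 1 / 2) : 2 * x ≠ 1 := by
  intro h'
  apply h
  field_simp
  linear_combination h'

theorem two_memP (hL : IsIwasawaLog p L) {t : PadicAlgCl p} (ht : Transcendental ℚ t)
    {V : Submodule ℚ (PadicAlgCl p)} (hV : ∀ z ∈ V, z ∈ LtE (logs L)) {x z : PadicAlgCl p}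
    (hx : x ∈ PairsP V L t) (hz : z ∈ PairsP V L t) : z = x ∨ z = 1 - x ∨
      (∃ a b : ℚ, (a : PadicAlgCl p) = x ∧ (b : PadicAlgCl p) = z) ∨
      (5 * (x * (1 - x)) = 1 ∧ 125 * (z * (1 - z)) = 1) ∨
      (125 * (x * (1 - x)) = 1 ∧ 5 * (z * (1 - z)) = 1) := by
  obtain ⟨a1, a2, a3, a4, a5, a6⟩ := hx
  obtain ⟨b1, b2, b3, b4, b5, b6⟩ := hz
  exact classify a1 b1 (two_ne a2) (two_ne b2)
    (dep3P hL ht a3 a4 b3 a1.1 a1.sub.1 b1.1 (hV _ a5) (hV _ a6) (hV _ b5))
    (dep3P hL ht a3 a4 b4 a1.1 a1.sub.1 b1.sub.1 (hV _ a5) (hV _ a6) (hV _ b6))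

/-- rational members: dependence over `ℚ` -/
theorem ratDep {Ω : Type*} [Field Ω] [CharZero Ω] {x y z : ℚ}
    (h : ∃ a b c : ℤ, (a ≠ 0 ∨ b ≠ 0 ∨ c ≠ 0) ∧ (x : Ω) ^ a * (y : Ω) ^ b * (z : Ω) ^ c = 1) :
    Pool.Agent.TH293.AP.Dep x y z := by
  obtain ⟨a, b, c, h1, h2⟩ := h
  exact ⟨a, b, c, h1, by exact_mod_cast h2⟩

theorem two_rat (hL : IsIwasawaLog p L) {t : PadicAlgCl p} (ht : Transcendental ℚ t)
    {V : Submodule ℚ (PadicAlgCl p)} (hV : ∀ z ∈ V, z ∈ LtE (logs L)) {x z : ℚ}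
    (hx : (x : PadicAlgCl p) ∈ PairsP V L t) (hz : (z : PadicAlgCl p) ∈ PairsP V L t)
    (hx2 : x < 1 / 2) (hz2 : z < 1 / 2) :
    z = x ∨ ((x = 1 / 3 ∨ x = 1 / 4 ∨ x = 1 / 9) ∧ (z = 1 / 3 ∨ z = 1 / 4 ∨ z = 1 / 9)) := by
  obtain ⟨a1, a2, a3, a4, a5, a6⟩ := hx
  obtain ⟨b1, b2, b3, b4, b5, b6⟩ := hz
  have hx0 := (TPa_ratCast a1).1
  have hz0 := (TPa_ratCast b1).1
  have key : ∀ {x y z : ℚ}, ‖(x : PadicAlgCl p)‖ = 1 → ‖(y : PadicAlgCl p)‖ = 1 →
      ‖(z : PadicAlgCl p)‖ = 1 → t * L (x : PadicAlgCl p) ∈ V → t * L (y : PadicAlgCl p) ∈ V →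
      t * L (z : PadicAlgCl p) ∈ V → Pool.Agent.TH293.AP.Dep x y z := by
    intro x y z e1 e2 e3 e4 e5 e6
    have al : ∀ q : ℚ, IsAlgebraic ℚ (q : PadicAlgCl p) := by
      intro q
      rw [← eq_ratCast (algebraMap ℚ (PadicAlgCl p)) q]
      exact isAlgebraic_algebraMap q
    exact ratDep (dep3P hL ht e1 e2 e3 (al _) (al _) (al _) (hV _ e4) (hV _ e5) (hV _ e6))
  have ex : ((1 - x : ℚ) : PadicAlgCl p) = 1 - x := by push_cast; rfl
  have ez : ((1 - z : ℚ) : PadicAlgCl p) = 1 - z := by push_cast; rfl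
  exact Pool.Agent.TH293.AP.core hx0 hx2 hz0 hz2
    (key a3 (by rw [ex]; exact a4) b3 a5 (by rw [ex]; exact a6) b5)
    (key a3 (by rw [ex]; exact a4) (by rw [ez]; exact b4) a5 (by rw [ex]; exact a6)
      (by rw [ez]; exact b6))
    (key b3 (by rw [ez]; exact b4) a3 b5 (by rw [ez]; exact b6) a5)
    (key b3 (by rw [ez]; exact b4) (by rw [ex]; exact a4) b5 (by rw [ez]; exact b6)
      (by rw [ex]; exact a6))

/-- rational numbers satisfy none of the two equations -/
theorem no_rat {n : ℕ} (q : ℚ) (hn : n = 5 ∨ n = 125)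
    (h : (n : PadicAlgCl p) * ((q : PadicAlgCl p) * (1 - q)) = 1) : False := by
  have h1 : (n : ℚ) * (q * (1 - q)) = 1 := by exact_mod_cast h
  have hs : Irrational (√5) := by
    have := Nat.Prime.irrational_sqrt (p := 5) (by norm_num)
    exact_mod_cast this
  have key : ∀ c : ℚ, c ^ 2 * 5 = 1 → False := by
    intro c hc
    have hc0 : c ≠ 0 := by
      rintro rfl
      norm_num at hc
    have h2 : (5 : ℝ) = ((1 / |c| : ℚ) : ℝ) ^ 2 := by
      have : (5 : ℚ) = (1 / |c|) ^ 2 := by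
        rw [div_pow, sq_abs]
        field_simp
        linarith
      exact_mod_cast this
    apply hs
    refine ⟨1 / |c|, ?_⟩
    rw [h2, Real.sqrt_sq]
    have : (0 : ℚ) ≤ 1 / |c| := by positivity
    exact_mod_cast this
  rcases hn with rfl | rfl
  · apply key (2 * q - 1)
    push_cast at h1
    linear_combination -4 * h1
  · apply key ((10 * q - 5) / 11)
    push_cast at h1
    linear_combination (-4 / 121 : ℚ) * h1

/-- the six exceptional rational numbers -/
def six (p : ℕ) [Fact p.Prime] : Set (PadicAlgCl p) :=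
  {1 / 3, 2 / 3, 1 / 4, 3 / 4, 1 / 9, 8 / 9}

theorem six_sub (hL : IsIwasawaLog p L) {t : PadicAlgCl p} {V : Submodule ℚ (PadicAlgCl p)}
    {x : ℚ} (hx : (x : PadicAlgCl p) ∈ PairsP V L t) (h : x = 1 / 3 ∨ x = 1 / 4 ∨ x = 1 / 9) :
    six p ⊆ PairsP V L t := by
  obtain ⟨-, -, a3, a4, a5, a6⟩ := hx
  have hc : ∀ z : PadicAlgCl p, ∀ q : ℚ, z ∈ V → (q : PadicAlgCl p) * z ∈ V := by
    intro z q hz
    have := V.smul_mem q hz
    rwa [Rat.smul_def] at this
  have n2 : (2 : PadicAlgCl p) ≠ 0 := two_ne_zero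
  have n3 : (3 : PadicAlgCl p) ≠ 0 := three_ne_zero
  have e4 : L 4 = 2 * L 2 := by
    have := hL.pow n2 2
    norm_num at this
    exact this
  have e9 : L 9 = 2 * L 3 := by
    have := hL.pow n3 2
    norm_num at this
    exact this
  have e8 : L 8 = 3 * L 2 := by
    have := hL.pow n2 3
    norm_num at this
    exact this
  have ediv : ∀ a b : PadicAlgCl p, a ≠ 0 → b ≠ 0 → L (a / b) = L a - L b := by
    intro a b ha hb
    rw [div_eq_mul_inv, hL.mul _ _ ha (inv_ne_zero hb), hL.inv hb]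
    ring
  have e1 : L 1 = 0 := hL.one
  have n4 : (4 : PadicAlgCl p) ≠ 0 := by norm_num
  have n9 : (9 : PadicAlgCl p) ≠ 0 := by norm_num
  have n8 : (8 : PadicAlgCl p) ≠ 0 := by norm_num
  have m1 : L (1 / 3) = -L 3 := by rw [ediv _ _ one_ne_zero n3, e1]; ring
  have m2 : L (2 / 3) = L 2 - L 3 := ediv _ _ n2 n3
  have m3 : L (1 / 4) = -2 * L 2 := by rw [ediv _ _ one_ne_zero n4, e1, e4]; ring
  have m4 : L (3 / 4) = L 3 - 2 * L 2 := by rw [ediv _ _ n3 n4, e4]
  have m5 : L (1 / 9) = -2 * L 3 := by rw [ediv _ _ one_ne_zero n9, e1, e9]; ring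
  have m6 : L (8 / 9) = 3 * L 2 - 2 * L 3 := by rw [ediv _ _ n8 n9, e8, e9]
  -- norms and logs of 2 and 3
  have hN4 : ‖(4 : PadicAlgCl p)‖ = ‖(2 : PadicAlgCl p)‖ ^ 2 := by rw [← norm_pow]; norm_num
  have hN9 : ‖(9 : PadicAlgCl p)‖ = ‖(3 : PadicAlgCl p)‖ ^ 2 := by rw [← norm_pow]; norm_num
  have hN8 : ‖(8 : PadicAlgCl p)‖ = ‖(2 : PadicAlgCl p)‖ ^ 3 := by rw [← norm_pow]; norm_num
  have p2 : 0 < ‖(2 : PadicAlgCl p)‖ := norm_pos_iff.2 n2
  have p3 : 0 < ‖(3 : PadicAlgCl p)‖ := norm_pos_iff.2 n3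
  have sq1 : ∀ r : ℝ, 0 < r → r ^ 2 = 1 → r = 1 := by
    intro r hr h
    nlinarith
  have main : ‖(2 : PadicAlgCl p)‖ = 1 ∧ ‖(3 : PadicAlgCl p)‖ = 1 ∧ t * L 2 ∈ V ∧ t * L 3 ∈ V := by
    rcases h with rfl | rfl | rfl
    · have c1 : (((1 / 3 : ℚ)) : PadicAlgCl p) = 1 / 3 := by push_cast; ring
      rw [c1] at a3 a4 a5 a6
      have c2 : (1 : PadicAlgCl p) - 1 / 3 = 2 / 3 := by norm_num
      rw [c2] at a4 a6
      rw [norm_div, norm_one] at a3
      have k3 : ‖(3 : PadicAlgCl p)‖ = 1 := by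
        rw [div_eq_one_iff_eq p3.ne'] at a3; exact a3.symm
      rw [norm_div, k3, div_one] at a4
      rw [m1] at a5
      rw [m2] at a6
      have q3 : t * L 3 ∈ V := by
        have := V.neg_mem a5
        convert this using 1
        ring
      refine ⟨a4, k3, ?_, q3⟩
      have := V.add_mem a6 q3
      convert this using 1
      ring
    · have c1 : (((1 / 4 : ℚ)) : PadicAlgCl p) = 1 / 4 := by push_cast; ring
      rw [c1] at a3 a4 a5 a6
      have c2 : (1 : PadicAlgCl p) - 1 / 4 = 3 / 4 := by norm_num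
      rw [c2] at a4 a6
      rw [norm_div, norm_one, hN4] at a3
      have k2 : ‖(2 : PadicAlgCl p)‖ = 1 := by
        rw [div_eq_one_iff_eq (by positivity)] at a3; exact sq1 _ p2 a3.symm
      rw [norm_div, hN4, k2, one_pow, div_one] at a4
      rw [m3] at a5
      rw [m4] at a6
      have q2 : t * L 2 ∈ V := by
        have := hc _ (-1 / 2) a5
        convert this using 1
        push_cast
        ring
      refine ⟨k2, a4, q2, ?_⟩
      have := V.add_mem a6 (hc _ 2 q2)
      convert this using 1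
      push_cast
      ring
    · have c1 : (((1 / 9 : ℚ)) : PadicAlgCl p) = 1 / 9 := by push_cast; ring
      rw [c1] at a3 a4 a5 a6
      have c2 : (1 : PadicAlgCl p) - 1 / 9 = 8 / 9 := by norm_num
      rw [c2] at a4 a6
      rw [norm_div, norm_one, hN9] at a3
      have k3 : ‖(3 : PadicAlgCl p)‖ = 1 := by
        rw [div_eq_one_iff_eq (by positivity)] at a3; exact sq1 _ p3 a3.symm
      rw [norm_div, hN9, k3, one_pow, div_one, hN8] at a4
      have k2 : ‖(2 : PadicAlgCl p)‖ = 1 :=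
        (pow_eq_one_iff_of_nonneg p2.le (by norm_num)).1 a4
      rw [m5] at a5
      rw [m6] at a6
      have q3 : t * L 3 ∈ V := by
        have := hc _ (-1 / 2) a5
        convert this using 1
        push_cast
        ring
      refine ⟨k2, k3, ?_, q3⟩
      have := hc _ (1 / 3) (V.add_mem a6 (hc _ 2 q3))
      convert this using 1
      push_cast
      ring
  obtain ⟨k2, k3, q2, q3⟩ := main
  have mem : ∀ q : ℚ, 0 < q → q < 1 → q ≠ 1 / 2 → ∀ a b c d : ℚ,
      ‖(q : PadicAlgCl p)‖ = 1 → ‖1 - (q : PadicAlgCl p)‖ = 1 →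
      L (q : PadicAlgCl p) = a * L 2 + b * L 3 → L (1 - (q : PadicAlgCl p)) = c * L 2 + d * L 3 →
      (q : PadicAlgCl p) ∈ PairsP V L t := by
    intro q h0 h1 h2 a b c d e1 e2 e3 e4
    refine ⟨TPa_rat h0 h1, ?_, e1, e2, ?_, ?_⟩
    · intro h
      apply h2
      have : ((q : ℚ) : PadicAlgCl p) = ((1 / 2 : ℚ) : PadicAlgCl p) := by
        rw [h]; push_cast; ring
      exact_mod_cast this
    · rw [e3]
      have := V.add_mem (hc _ a q2) (hc _ b q3)
      convert this using 1
      ring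
    · rw [e4]
      have := V.add_mem (hc _ c q2) (hc _ d q3)
      convert this using 1
      ring
  have w1 : (1 / 3 : PadicAlgCl p) ∈ PairsP V L t := by
    have := mem (1 / 3) (by norm_num) (by norm_num) (by norm_num) 0 (-1) 1 (-1)
      (by push_cast; rw [norm_div, norm_one, k3, div_one])
      (by push_cast; rw [show (1 : PadicAlgCl p) - 1 / 3 = 2 / 3 by norm_num, norm_div, k2, k3, div_one])
      (by push_cast; rw [m1]; ring)
      (by push_cast; rw [show (1 : PadicAlgCl p) - 1 / 3 = 2 / 3 by norm_num, m2]; ring)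
    push_cast at this
    exact this
  have w2 : (1 / 4 : PadicAlgCl p) ∈ PairsP V L t := by
    have := mem (1 / 4) (by norm_num) (by norm_num) (by norm_num) (-2) 0 (-2) 1
      (by push_cast; rw [norm_div, norm_one, hN4, k2, one_pow, div_one])
      (by push_cast; rw [show (1 : PadicAlgCl p) - 1 / 4 = 3 / 4 by norm_num, norm_div, hN4, k2, k3,
            one_pow, div_one])
      (by push_cast; rw [m3]; ring)
      (by push_cast; rw [show (1 : PadicAlgCl p) - 1 / 4 = 3 / 4 by norm_num, m4]; ring)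
    push_cast at this
    exact this
  have w3 : (1 / 9 : PadicAlgCl p) ∈ PairsP V L t := by
    have := mem (1 / 9) (by norm_num) (by norm_num) (by norm_num) 0 (-2) 3 (-2)
      (by push_cast; rw [norm_div, norm_one, hN9, k3, one_pow, div_one])
      (by push_cast; rw [show (1 : PadicAlgCl p) - 1 / 9 = 8 / 9 by norm_num, norm_div, hN8, hN9, k2,
            k3, one_pow, one_pow, div_one])
      (by push_cast; rw [m5]; ring)
      (by push_cast; rw [show (1 : PadicAlgCl p) - 1 / 9 = 8 / 9 by norm_num, m6]; ring)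
    push_cast at this
    exact this
  intro z hz
  simp only [six, Set.mem_insert_iff, Set.mem_singleton_iff] at hz
  rcases hz with rfl | rfl | rfl | rfl | rfl | rfl
  · exact w1
  · have := PairsP.sub w1
    rwa [show (1 : PadicAlgCl p) - 1 / 3 = 2 / 3 by norm_num] at this
  · exact w2
  · have := PairsP.sub w2
    rwa [show (1 : PadicAlgCl p) - 1 / 4 = 3 / 4 by norm_num] at this
  · exact w3
  · have := PairsP.sub w3
    rwa [show (1 : PadicAlgCl p) - 1 / 9 = 8 / 9 by norm_num] at this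

theorem trichotomyP (hL : IsIwasawaLog p L) {t : PadicAlgCl p} (ht : Transcendental ℚ t)
    {V : Submodule ℚ (PadicAlgCl p)} (hV : ∀ z ∈ V, z ∈ LtE (logs L)) :
    (∃ x, PairsP V L t ⊆ {x, 1 - x}) ∨ PairsP V L t = six p ∨
    PairsP V L t = {x | (5 * x ^ 2 - 5 * x + 1) * (125 * x ^ 2 - 125 * x + 1) = 0} := by
  by_cases hsub : ∃ x, PairsP V L t ⊆ {x, 1 - x}
  · left; exact hsub
  right
  have hne : (PairsP V L t).Nonempty := by
    rw [Set.nonempty_iff_ne_empty]
    intro h
    exact hsub ⟨0, by rw [h]; exact Set.empty_subset _⟩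
  obtain ⟨x, hx⟩ := hne
  have hex : ∃ z ∈ PairsP V L t, z ≠ x ∧ z ≠ 1 - x := by
    by_contra hcon
    push Not at hcon
    apply hsub
    refine ⟨x, fun z hz => ?_⟩
    by_cases h : z = x
    · left; exact h
    · right; exact hcon z hz h
  obtain ⟨z, hz, hzx, hzx'⟩ := hex
  rcases two_memP hL ht hV hx hz with h | h | ⟨a, b, rfl, rfl⟩ | ⟨h, h'⟩ | ⟨h, h'⟩
  · exact absurd h hzx
  · exact absurd h hzx'
  · left
    -- all members are rational
    have hrat : ∀ w ∈ PairsP V L t, ∃ q : ℚ, (q : PadicAlgCl p) = w := by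
      intro w hw
      rcases two_memP hL ht hV hx hw with h | h | ⟨a', b', h, h'⟩ | ⟨h, -⟩ | ⟨h, -⟩
      · exact ⟨a, h.symm⟩
      · exact ⟨1 - a, by rw [h]; push_cast; rfl⟩
      · exact ⟨b', h'⟩
      · exact (no_rat (p := p) (n := 5) a (Or.inl rfl) (by push_cast; exact h)).elim
      · exact (no_rat (p := p) (n := 125) a (Or.inr rfl) (by push_cast; exact h)).elim
    -- representatives below one half
    have hlow : ∀ q : ℚ, (q : PadicAlgCl p) ∈ PairsP V L t → ∃ q' : ℚ, q' < 1 / 2 ∧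
        (q' : PadicAlgCl p) ∈ PairsP V L t ∧ (q = q' ∨ q = 1 - q') := by
      intro q hq
      rcases lt_trichotomy q (1 / 2) with h | h | h
      · exact ⟨q, h, hq, Or.inl rfl⟩
      · exfalso
        apply hq.2.1
        rw [h]
        push_cast
        ring
      · refine ⟨1 - q, by linarith, ?_, Or.inr (by ring)⟩
        have := PairsP.sub hq
        push_cast
        exact this
    obtain ⟨a', ha1, ha2, ha3⟩ := hlow a hx
    obtain ⟨b', hb1, hb2, hb3⟩ := hlow b hz
    have hab : b' ≠ a' := by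
      rintro rfl
      rcases ha3 with rfl | rfl <;> rcases hb3 with rfl | rfl
      · exact hzx rfl
      · apply hzx'; push_cast; rfl
      · apply hzx'; push_cast; ring
      · exact hzx rfl
    have hspec : a' = 1 / 3 ∨ a' = 1 / 4 ∨ a' = 1 / 9 := by
      rcases two_rat hL ht hV ha2 hb2 ha1 hb1 with h | h
      · exact absurd h hab
      · exact h.1
    apply Set.Subset.antisymm _ (six_sub hL ha2 hspec)
    intro w hw
    obtain ⟨q, rfl⟩ := hrat w hw
    obtain ⟨q', hq1, hq2, hq3⟩ := hlow q hw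
    have hq' : q' = 1 / 3 ∨ q' = 1 / 4 ∨ q' = 1 / 9 := by
      rcases two_rat hL ht hV ha2 hq2 ha1 hq1 with h | h
      · rw [h]; exact hspec
      · exact h.2
    simp only [six, Set.mem_insert_iff, Set.mem_singleton_iff]
    rcases hq' with rfl | rfl | rfl <;> rcases hq3 with rfl | rfl
    · left; push_cast; rfl
    · right; left; push_cast; norm_num
    · right; right; left; push_cast; rfl
    · right; right; right; left; push_cast; norm_num
    · right; right; right; right; left; push_cast; rfl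
    · right; right; right; right; right; push_cast; norm_num
  all_goals right
  all_goals
    have gold : ∀ x z : PadicAlgCl p, x ∈ PairsP V L t → z ∈ PairsP V L t →
        5 * (x * (1 - x)) = 1 → 125 * (z * (1 - z)) = 1 →
        PairsP V L t = {x | (5 * x ^ 2 - 5 * x + 1) * (125 * x ^ 2 - 125 * x + 1) = 0} := by
      intro x z hx hz h h'
      ext w
      simp only [Set.mem_setOf_eq]
      constructor
      · intro hw
        rcases two_memP hL ht hV hx hw with h1 | h1 | ⟨a, b, h1, -⟩ | ⟨-, h1⟩ | ⟨h1, -⟩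
        · rw [h1]
          have : 5 * x ^ 2 - 5 * x + 1 = 0 := by linear_combination -h
          rw [this, zero_mul]
        · rw [h1]
          have : 5 * (1 - x) ^ 2 - 5 * (1 - x) + 1 = 0 := by linear_combination -h
          rw [this, zero_mul]
        · rw [← h1] at h
          exact (no_rat (p := p) (n := 5) a (Or.inl rfl) (by push_cast; exact h)).elim
        · have : 125 * w ^ 2 - 125 * w + 1 = 0 := by linear_combination -h1
          rw [this, mul_zero]
        · exfalso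
          have : (24 : PadicAlgCl p) = 0 := by linear_combination h1 - 25 * h
          norm_num at this
      · intro hw
        rcases mul_eq_zero.1 hw with h1 | h1
        · have h2 : (w - x) * (w - (1 - x)) = 0 := by
            linear_combination (1 / 5 : PadicAlgCl p) * h1 + (1 / 5 : PadicAlgCl p) * h
          rcases mul_eq_zero.1 h2 with h3 | h3
          · rw [sub_eq_zero.1 h3]; exact hx
          · rw [sub_eq_zero.1 h3]; exact PairsP.sub hx
        · have h2 : (w - z) * (w - (1 - z)) = 0 := by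
            linear_combination (1 / 125 : PadicAlgCl p) * h1 + (1 / 125 : PadicAlgCl p) * h'
          rcases mul_eq_zero.1 h2 with h3 | h3
          · rw [sub_eq_zero.1 h3]; exact hz
          · rw [sub_eq_zero.1 h3]; exact PairsP.sub hz
  · exact gold x z hx hz h h'
  · exact gold z x hz hx h' h

end Pool.Agent.H80.F4
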