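import Pool.Agent.H80.F4.Real
import Pool.Agent.H80.F4.Int2

set_option autoImplicit false

/-! # Number fields: totally positive elements, valuations, embeddings (helper80) -/

namespace Pool.Agent.H80.F4

open NumberField IsDedekindDomain Polynomial

variable {K : Type*} [Field K] [NumberField K]

/-- all conjugates are in `(0, 1)` -/
def TP (X : K) : Prop := ∀ σ : K →+* ℂ, ∃ r : ℝ, σ X = r ∧ 0 < r ∧ r < 1

theorem int_of_integral (q : ℚ) (h : IsIntegral ℤ q) : ∃ n : ℤ, q = n := by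
  obtain ⟨n, hn⟩ := IsIntegrallyClosed.algebraMap_eq_of_integral h
  exact ⟨n, by rw [← hn]; rfl⟩

theorem norm_int (X : K) (h : IsIntegral ℤ X) : ∃ n : ℤ, Algebra.norm ℚ X = n :=
  int_of_integral _ (Algebra.isIntegral_norm ℚ h)

theorem not_integral (X : K) (hX : TP X) : ¬ IsIntegral ℤ X := by
  intro h
  obtain ⟨n, hn⟩ := norm_int X h
  have h1 := Algebra.norm_eq_prod_embeddings (K := ℚ) (L := K) ℂ X
  rw [hn] at h1
  choose r hr1 hr2 hr3 using fun σ : K →ₐ[ℚ] ℂ => hX σ.toRingHom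
  have h2 : ∏ σ : K →ₐ[ℚ] ℂ, σ X = ((∏ σ : K →ₐ[ℚ] ℂ, r σ : ℝ) : ℂ) := by
    push_cast
    exact Finset.prod_congr rfl fun σ _ => hr1 σ
  rw [h2] at h1
  have h3 : (n : ℝ) = ∏ σ : K →ₐ[ℚ] ℂ, r σ := by
    have h4 : ((n : ℝ) : ℂ) = ((∏ σ : K →ₐ[ℚ] ℂ, r σ : ℝ) : ℂ) := by
      rw [← h1]
      simp
    exact_mod_cast h4
  have h5 : 0 < ∏ σ : K →ₐ[ℚ] ℂ, r σ := Finset.prod_pos fun σ _ => hr2 σ
  have h6 : ∏ σ : K →ₐ[ℚ] ℂ, r σ < 1 := by
    obtain ⟨σ₀⟩ : Nonempty (K →+* ℂ) := inferInstance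
    have hne : (Finset.univ : Finset (K →ₐ[ℚ] ℂ)).Nonempty := ⟨σ₀.toRatAlgHom, Finset.mem_univ _⟩
    have h7 := Finset.prod_lt_prod_of_nonempty (s := (Finset.univ : Finset (K →ₐ[ℚ] ℂ)))
      (f := r) (g := fun _ => (1 : ℝ)) (fun σ _ => hr2 σ) (fun σ _ => hr3 σ) hne
    simpa using h7
  rw [← h3] at h5 h6
  have h7 : 0 < n := by exact_mod_cast h5
  have h8 : n < 1 := by exact_mod_cast h6
  omega

/-- the logarithm of a valuation -/
noncomputable def Lg (v : HeightOneSpectrum (𝓞 K)) (X : K) : ℝ :=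
  Real.log (HeightOneSpectrum.adicAbv K v X)

theorem integral_of_le (X : K) (hX0 : X ≠ 0) (h : ∀ v : HeightOneSpectrum (𝓞 K), Lg v X ≤ 0) :
    IsIntegral ℤ X := by
  have h1 := HeightOneSpectrum.mem_integers_of_valuation_le_one (R := 𝓞 K) K X (fun v => by
    have h2 := h v
    unfold Lg at h2
    have h3 : 0 < HeightOneSpectrum.adicAbv K v X := (HeightOneSpectrum.adicAbv K v).pos hX0
    rw [Real.log_nonpos_iff h3.le] at h2
    rw [HeightOneSpectrum.adicAbv_def] at h2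
    have h4 : WithZeroMulInt.toNNReal (HeightOneSpectrum.absNorm_ne_zero v) (v.valuation K X) ≤ 1 := by
      exact_mod_cast h2
    exact (WithZeroMulInt.toNNReal_le_one_iff (HeightOneSpectrum.one_lt_absNorm_nnreal v)).1 h4)
  obtain ⟨y, hy⟩ := h1
  rw [← hy]
  exact y.2

theorem exists_big (X : K) (hX0 : X ≠ 0) (hX : TP X) :
    ∃ v : HeightOneSpectrum (𝓞 K), 0 < Lg v X := by
  by_contra hcon
  push Not at hcon
  exact not_integral X hX (integral_of_le X hX0 hcon)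

theorem trop (v : HeightOneSpectrum (𝓞 K)) (X : K) (hX0 : X ≠ 0) (hY0 : 1 - X ≠ 0) :
    (Lg v X = Lg v (1 - X) ∧ 0 ≤ Lg v X) ∨ (Lg v X = 0 ∧ Lg v (1 - X) ≤ 0) ∨
    (Lg v (1 - X) = 0 ∧ Lg v X ≤ 0) := by
  set A := HeightOneSpectrum.adicAbv K v with hA
  have hna : ∀ x y : K, A (x + y) ≤ max (A x) (A y) := HeightOneSpectrum.adicAbv_add_le_max K v
  have hX : 0 < A X := A.pos hX0
  have hY : 0 < A (1 - X) := A.pos hY0
  have h1 : (1 : ℝ) ≤ max (A X) (A (1 - X)) := by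
    have := hna X (1 - X)
    rwa [add_sub_cancel, map_one] at this
  have h2 : A X ≤ max 1 (A (1 - X)) := by
    have := hna 1 (-(1 - X))
    rwa [map_neg_eq_map, map_one, show (1 : K) + -(1 - X) = X by ring] at this
  have h3 : A (1 - X) ≤ max 1 (A X) := by
    have := hna 1 (-X)
    rwa [map_neg_eq_map, map_one, ← sub_eq_add_neg] at this
  have key : (A X = A (1 - X) ∧ 1 ≤ A X) ∨ (A X = 1 ∧ A (1 - X) ≤ 1) ∨ (A (1 - X) = 1 ∧ A X ≤ 1) := by
    rcases le_total (A X) (A (1 - X)) with h | h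
    · rw [max_eq_right h] at h1
      rcases le_max_iff.1 h3 with h4 | h4
      · right; right; exact ⟨le_antisymm h4 h1, h.trans h4⟩
      · left; exact ⟨le_antisymm h h4, h1.trans h4⟩
    · rw [max_eq_left h] at h1
      rcases le_max_iff.1 h2 with h4 | h4
      · right; left; exact ⟨le_antisymm h4 h1, h.trans h4⟩
      · left; exact ⟨le_antisymm h4 h, h1⟩
  unfold Lg
  rcases key with ⟨h4, h5⟩ | ⟨h4, h5⟩ | ⟨h4, h5⟩
  · left; exact ⟨by rw [← hA, h4], Real.log_nonneg h5⟩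
  · right; left; exact ⟨by rw [← hA, h4, Real.log_one], Real.log_nonpos hY.le h5⟩
  · right; right; exact ⟨by rw [← hA, h4, Real.log_one], Real.log_nonpos hX.le h5⟩

theorem Lg_rel (v : HeightOneSpectrum (𝓞 K)) (X Y Z : K) (hX : X ≠ 0) (hY : Y ≠ 0) (N : ℕ)
    (a b : ℤ) (h : Z ^ N = X ^ a * Y ^ b) : N * Lg v Z = a * Lg v X + b * Lg v Y := by
  unfold Lg
  have h1 := congrArg (HeightOneSpectrum.adicAbv K v) h
  rw [map_pow, map_mul, map_zpow₀, map_zpow₀] at h1
  have hX' : 0 < HeightOneSpectrum.adicAbv K v X := (HeightOneSpectrum.adicAbv K v).pos hX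
  have hY' : 0 < HeightOneSpectrum.adicAbv K v Y := (HeightOneSpectrum.adicAbv K v).pos hY
  have h2 := congrArg Real.log h1
  rwa [Real.log_pow, Real.log_mul (zpow_pos hX' a).ne' (zpow_pos hY' b).ne', Real.log_zpow,
    Real.log_zpow] at h2

theorem Arch_rel {x y z : ℝ} (hx : 0 < x) (hy : 0 < y) (N : ℕ)
    (a b : ℤ) (h : z ^ N = x ^ a * y ^ b) : N * Real.log z = a * Real.log x + b * Real.log y := by
  have h2 := congrArg Real.log h
  rwa [Real.log_pow, Real.log_mul (zpow_pos hx a).ne' (zpow_pos hy b).ne', Real.log_zpow,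
    Real.log_zpow] at h2

/-- constant embeddings: rational -/
theorem rat_of_const (X : K) (w : ℂ) (h : ∀ σ : K →+* ℂ, σ X = w) :
    ∃ q : ℚ, algebraMap ℚ K q = X := by
  have h1 := Embeddings.range_eval_eq_rootSet_minpoly K ℂ X
  have h2 : (minpoly ℚ X).rootSet ℂ = {w} := by
    rw [← h1]
    ext z
    simp only [Set.mem_range, Set.mem_singleton_iff]
    constructor
    · rintro ⟨σ, rfl⟩; exact h σ
    · rintro rfl
      obtain ⟨σ⟩ : Nonempty (K →+* ℂ) := inferInstance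
      exact ⟨σ, h σ⟩
  have h3 := Polynomial.card_rootSet_eq_natDegree (K := ℂ) (minpoly.irreducible
    (Algebra.IsIntegral.isIntegral (R := ℚ) X)).separable (IsAlgClosed.splits _)
  have h4 : Fintype.card ((minpoly ℚ X).rootSet ℂ) = 1 := by
    rw [← Nat.card_eq_fintype_card, h2]
    simp
  rw [h4] at h3
  have h5 := minpoly.natDegree_eq_one_iff.1 h3.symm
  obtain ⟨q, hq⟩ := h5
  exact ⟨q, hq⟩

/-- a unit with two conjugates -/
theorem unit_two (X : K) (h1 : IsIntegral ℤ X) (h2 : IsIntegral ℤ X⁻¹) (hX0 : X ≠ 0) (s t : ℝ)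
    (hs : 0 < s) (ht : 0 < t) (hst : s ≠ t) (h : ∀ σ : K →+* ℂ, σ X = s ∨ σ X = t)
    (hs' : ∃ σ : K →+* ℂ, σ X = s) (ht' : ∃ σ : K →+* ℂ, σ X = t) : s * t = 1 := by
  have e1 := Embeddings.range_eval_eq_rootSet_minpoly K ℂ X
  have e2 : ((minpoly ℚ X).aroots ℂ).toFinset = {(s : ℂ), (t : ℂ)} := by
    ext z
    have e3 : z ∈ (minpoly ℚ X).rootSet ℂ ↔ z ∈ ((minpoly ℚ X).aroots ℂ).toFinset := by
      rw [Polynomial.rootSet_def]
      exact Finset.mem_coe
    rw [← e3, ← e1]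
    simp only [Set.mem_range, Finset.mem_insert, Finset.mem_singleton]
    constructor
    · rintro ⟨σ, rfl⟩; exact h σ
    · rintro (rfl | rfl)
      · exact hs'
      · exact ht'
  have e3 : ((minpoly ℚ X).aroots ℂ).Nodup := by
    apply Polynomial.nodup_roots
    exact ((minpoly.irreducible (Algebra.IsIntegral.isIntegral (R := ℚ) X)).separable).map
  have e4 : ((minpoly ℚ X).aroots ℂ).prod = (s : ℂ) * t := by
    have e5 : ((minpoly ℚ X).aroots ℂ).toFinset.val = (minpoly ℚ X).aroots ℂ := by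
      rw [Multiset.toFinset_val, e3.dedup]
    have hne : (s : ℂ) ≠ t := fun hc => hst (by exact_mod_cast hc)
    have e6 := Finset.prod_pair (f := fun z : ℂ => z) hne
    rw [← e6, ← e5, e2, Finset.prod, Multiset.map_id']
  have e5 := Algebra.norm_eq_prod_roots (K := ℚ) (L := K) (F := ℂ) (x := X) (IsAlgClosed.splits _)
  rw [e4] at e5
  obtain ⟨n, hn⟩ := norm_int X h1
  obtain ⟨m, hm⟩ := norm_int X⁻¹ h2
  have e6 : n * m = 1 := by
    have e7 : Algebra.norm ℚ X * Algebra.norm ℚ X⁻¹ = 1 := by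
      rw [← map_mul, mul_inv_cancel₀ hX0, map_one]
    rw [hn, hm] at e7
    exact_mod_cast e7
  rw [hn] at e5
  have e8 : (n : ℝ) = (s * t) ^ (Module.finrank (IntermediateField.adjoin ℚ {X}) K) := by
    have : ((n : ℝ) : ℂ) = (((s * t) ^ (Module.finrank (IntermediateField.adjoin ℚ {X}) K) : ℝ) : ℂ) := by
      push_cast
      rw [← e5]
      simp
    exact_mod_cast this
  have e9 : 0 < (n : ℝ) := by rw [e8]; positivity
  have e10 : 0 < n := by exact_mod_cast e9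
  have e11 : n = 1 := by
    rcases Int.eq_one_or_neg_one_of_mul_eq_one e6 with h | h <;> omega
  rw [e11] at e8
  have e12 : Module.finrank (IntermediateField.adjoin ℚ {X}) K ≠ 0 := Module.finrank_pos.ne'
  exact (pow_eq_one_iff_of_nonneg (by positivity) e12).1 (by rw [← e8]; simp)

end Pool.Agent.H80.F4
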