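import Mathlib

set_option autoImplicit false

/-! # Positive roots of some equations with real exponents (helper80) -/

namespace Pool.Agent.H80.F4

/-- `(1 + s) ^ d = 1 + s ^ c` has at most one positive root -/
theorem root_i_lt {c d s t : ℝ} (hc : 0 < c) (hd : 0 < d) (hs : 0 < s) (hst : s < t)
    (h1 : (1 + s) ^ d = 1 + s ^ c) (h2 : (1 + t) ^ d = 1 + t ^ c) : c = 1 ∧ d = 1 := by
  set g : ℝ → ℝ := fun x => (1 + x) ^ d - x ^ c - 1 with hg
  have hcont : ∀ a b : ℝ, 0 ≤ a → ContinuousOn g (Set.Icc a b) := by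
    intro a b ha
    apply ContinuousOn.sub
    · apply ContinuousOn.sub
      · apply ContinuousOn.rpow_const
        · fun_prop
        · intro x hx
          left
          have := hx.1
          linarith
      · apply ContinuousOn.rpow_const
        · fun_prop
        · intro x hx
          right
          exact hc.le
    · fun_prop
  have hder : ∀ x : ℝ, 0 < x → HasDerivAt g (d * (1 + x) ^ (d - 1) - c * x ^ (c - 1)) x := by
    intro x hx
    have e1 : HasDerivAt (fun x : ℝ => (1 + x) ^ d) (1 * d * (1 + x) ^ (d - 1)) x := by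
      apply HasDerivAt.rpow_const
      · simpa using (hasDerivAt_id x).const_add 1
      · left; linarith
    have e2 : HasDerivAt (fun x : ℝ => x ^ c) (c * x ^ (c - 1)) x :=
      Real.hasDerivAt_rpow_const (Or.inl hx.ne')
    have e3 := (e1.sub e2).sub_const 1
    exact e3.congr_deriv (by ring)
  have hg0 : g 0 = 0 := by
    simp only [hg]
    rw [Real.zero_rpow hc.ne']
    simp
  have hgs : g s = 0 := by simp only [hg]; rw [h1]; ring
  have hgt : g t = 0 := by simp only [hg]; rw [h2]; ring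
  obtain ⟨x1, ⟨a1, a2⟩, a3⟩ := exists_hasDerivAt_eq_zero hs (hcont 0 s le_rfl) (by rw [hg0, hgs])
    (fun x hx => hder x hx.1)
  obtain ⟨x2, ⟨b1, b2⟩, b3⟩ := exists_hasDerivAt_eq_zero hst (hcont s t hs.le) (by rw [hgs, hgt])
    (fun x hx => hder x (hs.trans hx.1))
  have hx12 : x1 < x2 := a2.trans b1
  set k : ℝ → ℝ := fun x => Real.log d + (d - 1) * Real.log (1 + x) - Real.log c -
    (c - 1) * Real.log x with hk
  have hkz : ∀ x : ℝ, 0 < x → d * (1 + x) ^ (d - 1) - c * x ^ (c - 1) = 0 → k x = 0 := by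
    intro x hx h
    have h3 : d * (1 + x) ^ (d - 1) = c * x ^ (c - 1) := by linarith
    have h4 := congrArg Real.log h3
    rw [Real.log_mul hd.ne' (by positivity), Real.log_mul hc.ne' (by positivity),
      Real.log_rpow (by linarith), Real.log_rpow hx] at h4
    simp only [hk]
    linarith
  have hkder : ∀ x : ℝ, 0 < x → HasDerivAt k ((d - 1) / (1 + x) - (c - 1) / x) x := by
    intro x hx
    have e1 : HasDerivAt (fun x : ℝ => Real.log (1 + x)) (1 / (1 + x)) x := by
      apply HasDerivAt.log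
      · simpa using (hasDerivAt_id x).const_add 1
      · linarith
    have e2 : HasDerivAt (fun x : ℝ => Real.log x) (x⁻¹) x := Real.hasDerivAt_log hx.ne'
    have e3 := (((e1.const_mul (d - 1)).const_add (Real.log d)).sub_const (Real.log c)).sub
      (e2.const_mul (c - 1))
    exact e3.congr_deriv (by ring)
  obtain ⟨x3, ⟨c1, c2⟩, c3⟩ := exists_hasDerivAt_eq_zero hx12
    (fun x hx => (hkder x (a1.trans_le hx.1)).continuousAt.continuousWithinAt)
    (by rw [hkz x1 a1 a3, hkz x2 (a1.trans hx12) b3])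
    (fun x hx => hkder x (a1.trans hx.1))
  have hx3 : 0 < x3 := a1.trans c1
  have hkey : (d - c) * x3 = c - 1 := by
    have h3 : (1 : ℝ) + x3 ≠ 0 := by linarith
    field_simp at c3
    linarith
  rcases lt_trichotomy c 1 with hlt | heq | hgt'
  · exfalso
    have hdc : d < c := by
      by_contra hcon
      push Not at hcon
      have : 0 ≤ (d - c) * x3 := mul_nonneg (by linarith) hx3.le
      linarith
    have h3 : (1 + s) ^ d < (1 + s) ^ c := Real.rpow_lt_rpow_of_exponent_lt (by linarith) hdc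
    have h4 : (1 + s) ^ c ≤ 1 ^ c + s ^ c := Real.rpow_add_le_add_rpow (by norm_num) hs.le hc.le hlt.le
    rw [Real.one_rpow] at h4
    linarith
  · refine ⟨heq, ?_⟩
    rw [heq, sub_self] at hkey
    rcases mul_eq_zero.1 hkey with h3 | h3
    · linarith
    · linarith
  · exfalso
    have hdc : c < d := by
      by_contra hcon
      push Not at hcon
      have : (d - c) * x3 ≤ 0 := mul_nonpos_of_nonpos_of_nonneg (by linarith) hx3.le
      linarith
    have h3 : (1 + s) ^ c < (1 + s) ^ d := Real.rpow_lt_rpow_of_exponent_lt (by linarith) hdc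
    have h4 : (1 : ℝ) ^ c + s ^ c ≤ (1 + s) ^ c := Real.add_rpow_le_rpow_add (by norm_num) hs.le hgt'.le
    rw [Real.one_rpow] at h4
    linarith

theorem root_i {c d s t : ℝ} (hc : 0 < c) (hd : 0 < d) (hs : 0 < s) (ht : 0 < t)
    (h1 : (1 + s) ^ d = 1 + s ^ c) (h2 : (1 + t) ^ d = 1 + t ^ c) : s = t ∨ (c = 1 ∧ d = 1) := by
  rcases lt_trichotomy s t with h | h | h
  · right; exact root_i_lt hc hd hs h h1 h2
  · left; exact h
  · right; exact root_i_lt hc hd ht h h2 h1

/-- `s ^ c = 1 + (1 + s) ^ e` has at most one positive root -/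
theorem root_ii_lt {c e s t : ℝ} (hc : 0 < c) (he : 0 < e) (hs : 0 < s) (hst : s < t)
    (h1 : s ^ c = 1 + (1 + s) ^ e) (h2 : t ^ c = 1 + (1 + t) ^ e) : False := by
  have ht : 0 < t := hs.trans hst
  have hce : e < c := by
    by_contra hcon
    push Not at hcon
    have h3 : 1 < s ^ c := by
      have : 0 < (1 + s) ^ e := by positivity
      linarith
    have h4 : 1 < s := by
      by_contra h5
      push Not at h5
      have := Real.rpow_le_one hs.le h5 hc.le
      linarith
    have h5 : s ^ c ≤ s ^ e := Real.rpow_le_rpow_of_exponent_le h4.le hcon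
    have h6 : s ^ e ≤ (1 + s) ^ e := Real.rpow_le_rpow hs.le (by linarith) he.le
    linarith
  set r : ℝ := ((1 + t) / (1 + s)) ^ e with hr
  have hr1 : 1 ≤ r := by
    apply Real.one_le_rpow _ he.le
    rw [le_div_iff₀ (by linarith)]
    linarith
  have hrR : r < (t / s) ^ c := by
    have h3 : r < (t / s) ^ e := by
      apply Real.rpow_lt_rpow (by positivity) _ he
      rw [div_lt_div_iff₀ (by linarith) hs]
      nlinarith
    have h4 : (t / s) ^ e ≤ (t / s) ^ c := by
      apply Real.rpow_le_rpow_of_exponent_le _ hce.le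
      rw [le_div_iff₀ hs]
      linarith
    linarith
  have e1 : (1 + t) ^ e = r * (1 + s) ^ e := by
    rw [hr, Real.div_rpow (by linarith) (by linarith)]
    have : (1 + s) ^ e ≠ 0 := by positivity
    field_simp
  have e2 : t ^ c = (t / s) ^ c * s ^ c := by
    rw [Real.div_rpow ht.le hs.le]
    have : s ^ c ≠ 0 := by positivity
    field_simp
  have h3 : r * s ^ c < (t / s) ^ c * s ^ c := mul_lt_mul_of_pos_right hrR (by positivity)
  rw [← e2, h2, h1, e1] at h3
  linarith

theorem root_ii {c e s t : ℝ} (hc : 0 < c) (he : 0 < e) (hs : 0 < s) (ht : 0 < t)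
    (h1 : s ^ c = 1 + (1 + s) ^ e) (h2 : t ^ c = 1 + (1 + t) ^ e) : s = t := by
  rcases lt_trichotomy s t with h | h | h
  · exact (root_ii_lt hc he hs h h1 h2).elim
  · exact h
  · exact (root_ii_lt hc he ht h h2 h1).elim

/-- `log (1 + e^w)` -/
noncomputable def l1 (w : ℝ) : ℝ := Real.log (1 + Real.exp w)

theorem l1_pos (w : ℝ) : 0 < l1 w := Real.log_pos (by have := Real.exp_pos w; linarith)

theorem l1_lt {v w : ℝ} (h : v < w) : l1 v < l1 w := by
  apply Real.log_lt_log (by positivity)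
  have := Real.exp_lt_exp.2 h
  linarith

theorem l1_neg (w : ℝ) : l1 w = w + l1 (-w) := by
  unfold l1
  have h1 : (1 : ℝ) + Real.exp w = Real.exp w * (1 + Real.exp (-w)) := by
    rw [mul_add, ← Real.exp_add]
    simp [add_comm]
  rw [h1, Real.log_mul (Real.exp_pos w).ne' (by positivity), Real.log_exp]

/-- twice `log (2 cosh (w / 2))` -/
noncomputable def E2 (w : ℝ) : ℝ := 2 * l1 w - w

theorem E2_eq (w : ℝ) : E2 w = Real.log (2 + 2 * Real.cosh w) := by
  unfold E2 l1
  have h1 : (2 : ℝ) + 2 * Real.cosh w = (1 + Real.exp w) ^ 2 / Real.exp w := by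
    rw [Real.cosh_eq, Real.exp_neg]
    have := Real.exp_pos w
    field_simp
    ring
  rw [h1, Real.log_div (by positivity) (Real.exp_pos w).ne', Real.log_pow, Real.log_exp]
  push_cast
  ring

theorem E2_neg (w : ℝ) : E2 (-w) = E2 w := by
  rw [E2_eq, E2_eq, Real.cosh_neg]

theorem E2_pos (w : ℝ) : 0 < E2 w := by
  rw [E2_eq]
  apply Real.log_pos
  have := Real.one_le_cosh w
  linarith

theorem E2_lt {v w : ℝ} (h : |v| < |w|) : E2 v < E2 w := by
  rw [E2_eq, E2_eq]
  apply Real.log_lt_log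
  · have := Real.one_le_cosh v
    linarith
  · have := Real.cosh_lt_cosh.2 h
    linarith

/-- the function `log (1 + s^ρ) - κ log (1 + s) + γ log s`, `s = e^w` -/
noncomputable def Ph (ρ κ γ w : ℝ) : ℝ := l1 (ρ * w) - κ * l1 w + γ * w

theorem Ph_E2 (ρ κ γ w : ℝ) : 2 * Ph ρ κ γ w = E2 (ρ * w) - κ * E2 w - (κ - 2 * γ - ρ) * w := by
  unfold Ph E2
  ring

theorem Ph_kappa {ρ κ γ w v : ℝ} (hρ : 1 < ρ) (hw : 0 < w) (hv : v < 0) (h1 : Ph ρ κ γ w = 0)
    (h2 : Ph ρ κ γ v = 0) : 1 < κ := by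
  have e1 := Ph_E2 ρ κ γ w
  have e2 := Ph_E2 ρ κ γ v
  rw [h1] at e1
  rw [h2] at e2
  have a1 : E2 w < E2 (ρ * w) := by
    apply E2_lt
    rw [abs_of_pos hw, abs_of_pos (by positivity)]
    nlinarith
  have a2 : E2 v < E2 (ρ * v) := by
    apply E2_lt
    rw [abs_mul, abs_of_pos (by linarith : 0 < ρ)]
    have : 0 < |v| := abs_pos.2 hv.ne
    nlinarith
  have p1 := E2_pos w
  have p2 := E2_pos v
  by_contra hcon
  push Not at hcon
  rcases le_total 0 (κ - 2 * γ - ρ) with h | h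
  · have h3 : 0 ≤ (κ - 2 * γ - ρ) * (-v) := mul_nonneg h (by linarith)
    have h4 : κ * E2 v ≤ 1 * E2 v := mul_le_mul_of_nonneg_right hcon p2.le
    linarith
  · have h3 : (κ - 2 * γ - ρ) * w ≤ 0 := mul_nonpos_of_nonpos_of_nonneg h hw.le
    have h4 : κ * E2 w ≤ 1 * E2 w := mul_le_mul_of_nonneg_right hcon p1.le
    linarith

theorem Ph_der (ρ κ γ w : ℝ) : HasDerivAt (Ph ρ κ γ)
    (ρ * Real.exp (ρ * w) / (1 + Real.exp (ρ * w)) - κ * (Real.exp w / (1 + Real.exp w)) + γ) w := by
  have e1 : ∀ u : ℝ, HasDerivAt l1 (Real.exp u / (1 + Real.exp u)) u := by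
    intro u
    unfold l1
    apply HasDerivAt.log
    · simpa using (Real.hasDerivAt_exp u).const_add 1
    · positivity
  have e2 : HasDerivAt (fun w => l1 (ρ * w)) (Real.exp (ρ * w) / (1 + Real.exp (ρ * w)) * ρ) w := by
    have e3 : HasDerivAt (fun w : ℝ => ρ * w) ρ w := by
      simpa using (hasDerivAt_id w).const_mul ρ
    exact (e1 (ρ * w)).comp w e3
  have e3 := ((e2.sub ((e1 w).const_mul κ)).add ((hasDerivAt_id w).const_mul γ))
  exact e3.congr_deriv (by ring)

theorem Ph_der_zero {ρ κ γ w : ℝ}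
    (h : ρ * Real.exp (ρ * w) / (1 + Real.exp (ρ * w)) - κ * (Real.exp w / (1 + Real.exp w)) + γ = 0) :
    Real.exp ((ρ - 1) * w) * ((ρ - κ + γ) * (1 + Real.exp w) + κ) =
      κ + (-γ) * (1 + Real.exp (-w)) := by
  have e1 : Real.exp ((ρ - 1) * w) = Real.exp (ρ * w) * Real.exp (-w) := by
    rw [← Real.exp_add]; ring_nf
  have e2 : Real.exp w * Real.exp (-w) = 1 := by
    rw [← Real.exp_add]; simp
  have p1 := Real.exp_pos w
  have p2 := Real.exp_pos (ρ * w)
  rw [e1]
  generalize Real.exp (ρ * w) = S at *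
  generalize Real.exp (-w) = v at *
  generalize Real.exp w = s at *
  have h1 : (1 + S) ≠ 0 := by linarith
  have h2 : (1 + s) ≠ 0 := by linarith
  field_simp at h
  linear_combination v * h + (κ - γ) * e2

/-- at most two zeros -/
theorem Ph_zeros {ρ κ γ w v : ℝ} (hρ : 1 < ρ) (hw : 0 < w) (hv : v < 0) (h1 : Ph ρ κ γ w = 0)
    (h2 : Ph ρ κ γ v = 0) (u : ℝ) (hu : Ph ρ κ γ u = 0) : u = w ∨ u = v := by
  have hκ := Ph_kappa hρ hw hv h1 h2
  have hγ : γ < 0 := by
    by_contra hcon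
    push Not at hcon
    unfold Ph at h2
    have h3 : γ * v ≤ 0 := mul_nonpos_of_nonneg_of_nonpos hcon hv.le
    have h4 : l1 (ρ * v) < l1 v := l1_lt (by nlinarith)
    have h5 := l1_pos v
    nlinarith
  have hc3 : 0 < ρ - κ + γ := by
    by_contra hcon
    push Not at hcon
    unfold Ph at h1
    rw [l1_neg (ρ * w), l1_neg w] at h1
    have h3 : (ρ - κ + γ) * w ≤ 0 := mul_nonpos_of_nonpos_of_nonneg hcon hw.le
    have h4 : l1 (-(ρ * w)) < l1 (-w) := l1_lt (by nlinarith)
    have h5 := l1_pos (-w)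
    nlinarith
  have key : ∀ a b c : ℝ, a < b → b < c → Ph ρ κ γ a = 0 → Ph ρ κ γ b = 0 → Ph ρ κ γ c = 0 → False := by
    intro a b c hab hbc ha hb hc
    obtain ⟨x1, ⟨a1, a2⟩, a3⟩ := exists_hasDerivAt_eq_zero hab
      (fun x _ => (Ph_der ρ κ γ x).continuousAt.continuousWithinAt) (by rw [ha, hb])
      (fun x _ => Ph_der ρ κ γ x)
    obtain ⟨x2, ⟨b1, b2⟩, b3⟩ := exists_hasDerivAt_eq_zero hbc
      (fun x _ => (Ph_der ρ κ γ x).continuousAt.continuousWithinAt) (by rw [hb, hc])
      (fun x _ => Ph_der ρ κ γ x)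
    have hx : x1 < x2 := a2.trans b1
    have c1 := Ph_der_zero a3
    have c2 := Ph_der_zero b3
    have d1 : Real.exp ((ρ - 1) * x1) < Real.exp ((ρ - 1) * x2) := by
      apply Real.exp_lt_exp.2
      nlinarith
    have d2 : Real.exp x1 < Real.exp x2 := Real.exp_lt_exp.2 hx
    have d3 : Real.exp (-x2) < Real.exp (-x1) := Real.exp_lt_exp.2 (by linarith)
    have d4 : (ρ - κ + γ) * (1 + Real.exp x1) + κ < (ρ - κ + γ) * (1 + Real.exp x2) + κ := by nlinarith
    have d5 : 0 < (ρ - κ + γ) * (1 + Real.exp x1) + κ := by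
      have := Real.exp_pos x1
      positivity
    have d6 : Real.exp ((ρ - 1) * x1) * ((ρ - κ + γ) * (1 + Real.exp x1) + κ) <
        Real.exp ((ρ - 1) * x2) * ((ρ - κ + γ) * (1 + Real.exp x2) + κ) :=
      mul_lt_mul'' d1 d4 (Real.exp_pos _).le d5.le
    have d7 : κ + (-γ) * (1 + Real.exp (-x2)) < κ + (-γ) * (1 + Real.exp (-x1)) := by nlinarith
    linarith
  by_contra hcon
  push Not at hcon
  obtain ⟨n1, n2⟩ := hcon
  have hvw : v < w := hv.trans hw
  rcases lt_or_gt_of_ne n1 with h | h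
  · rcases lt_or_gt_of_ne n2 with h' | h'
    · exact key u v w h' hvw hu h2 h1
    · exact key v u w h' h h2 hu h1
  · exact key v w u hvw h h2 h1 hu

theorem Ph_sym {ρ κ γ w : ℝ} (hw : w ≠ 0) (h1 : Ph ρ κ γ w = 0) (h2 : Ph ρ κ γ (-w) = 0) :
    2 + 2 * Real.cosh (ρ * w) = (2 + 2 * Real.cosh w) ^ κ := by
  have e1 := Ph_E2 ρ κ γ w
  have e2 := Ph_E2 ρ κ γ (-w)
  rw [h1] at e1
  rw [h2, mul_neg, E2_neg, E2_neg] at e2
  have h3 : E2 (ρ * w) = κ * E2 w := by linarith
  rw [E2_eq, E2_eq] at h3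
  have p1 : (0 : ℝ) < 2 + 2 * Real.cosh (ρ * w) := by
    have := Real.one_le_cosh (ρ * w); linarith
  have p2 : (0 : ℝ) < 2 + 2 * Real.cosh w := by
    have := Real.one_le_cosh w; linarith
  rw [← Real.exp_log p1, h3, mul_comm, Real.exp_mul, Real.exp_log p2]

end Pool.Agent.H80.F4
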